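import Pool.Agent.H81.NCH.Defs

/-!
# NCH: geometry of positions (library)
-/

set_option autoImplicit false

namespace Pool.Agent.H81.NCH

variable {h m : ℕ}

/-! ### Sizes -/

theorem NN_pos (h : ℕ) : 0 < NN h := by
  unfold NN
  positivity

theorem NH_succ_eq (h m e : ℕ) : NH h m (e + 1) = NN h * HH m (h - (e + 1)) := rfl

theorem Wd_eq (h m e : ℕ) : Wd h m (h - e) = 2 * NH h m e + 1 := rfl

theorem Wd_pos (h m k : ℕ) : 0 < Wd h m k := by
  unfold Wd
  omega

theorem Ln_eq (h m k : ℕ) : Ln h m k = 2 * Wd h m k + Cr h m k := by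
  cases k with
  | zero => rfl
  | succ k => rfl

theorem Ln_pos (h m k : ℕ) : 0 < Ln h m k := by
  have := Ln_eq h m k
  have := Wd_pos h m k
  omega

theorem Cr_of_lt {e : ℕ} (he : e < h) : Cr h m (h - e) = 2 * Ln h m (h - (e + 1)) := by
  have h1 : h - e = (h - (e + 1)) + 1 := by omega
  rw [h1]
  rfl

theorem Cr_pos_of_lt {e : ℕ} (he : e < h) : 0 < Cr h m (h - e) := by
  rw [Cr_of_lt he]
  have := Ln_pos h m (h - (e + 1))
  omega

/-! ### One node -/

theorem cs_root (i : ℕ) : cs h m 0 i = 0 := rfl

theorem cs_succ (e i : ℕ) : cs h m (e + 1) i =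
    cs h m e (i / 2) + (i % 2) * Ln h m (h - (e + 1)) + Wd h m (h - (e + 1)) := rfl

theorem st_succ (e i : ℕ) : st h m (e + 1) i =
    cs h m e (i / 2) + (i % 2) * Ln h m (h - (e + 1)) := by
  unfold st
  rw [cs_succ]
  omega

theorem cs_eq_st {e : ℕ} (he : 1 ≤ e) (i : ℕ) : cs h m e i = st h m e i + Wd h m (h - e) := by
  obtain ⟨e, rfl⟩ : ∃ e', e = e' + 1 := ⟨e - 1, by omega⟩
  rw [cs_succ, st_succ]

theorem ce_def (e i : ℕ) : ce h m e i = cs h m e i + Cr h m (h - e) := rfl

theorem en_def (e i : ℕ) : en h m e i = ce h m e i + Wd h m (h - e) := rfl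

theorem md_def (e i : ℕ) : md h m e i = cs h m e i + Ln h m (h - (e + 1)) := rfl

theorem cs_le_ce (e i : ℕ) : cs h m e i ≤ ce h m e i := by
  unfold ce
  omega

theorem en_eq_st {e : ℕ} (he : 1 ≤ e) (i : ℕ) : en h m e i = st h m e i + Ln h m (h - e) := by
  rw [en_def, ce_def, cs_eq_st he, Ln_eq]
  omega

theorem ce_eq_md {e : ℕ} (he : e < h) (i : ℕ) :
    ce h m e i = md h m e i + Ln h m (h - (e + 1)) := by
  rw [ce_def, md_def, Cr_of_lt he]
  omega

theorem cs_lt_ce {e : ℕ} (he : e < h) (i : ℕ) : cs h m e i < ce h m e i := by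
  rw [ce_def]
  have := Cr_pos_of_lt (m := m) he
  omega

/-! ### Children -/

theorem st_left (e i : ℕ) : st h m (e + 1) (2 * i) = cs h m e i := by
  rw [st_succ]
  have h1 : 2 * i / 2 = i := by omega
  have h2 : 2 * i % 2 = 0 := by omega
  rw [h1, h2]
  omega

theorem st_right (e i : ℕ) : st h m (e + 1) (2 * i + 1) = md h m e i := by
  rw [st_succ, md_def]
  have h1 : (2 * i + 1) / 2 = i := by omega
  have h2 : (2 * i + 1) % 2 = 1 := by omega
  rw [h1, h2]
  omega

theorem en_left (e i : ℕ) : en h m (e + 1) (2 * i) = md h m e i := by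
  rw [en_eq_st (by omega), st_left, md_def]

theorem en_right {e : ℕ} (he : e < h) (i : ℕ) : en h m (e + 1) (2 * i + 1) = ce h m e i := by
  rw [en_eq_st (by omega), st_right, ce_eq_md he]

/-- the interval of a child lies in the core of its parent -/
theorem child_nested {e : ℕ} (he : e < h) (x : ℕ) :
    cs h m e (x / 2) ≤ st h m (e + 1) x ∧ en h m (e + 1) x ≤ ce h m e (x / 2) := by
  rw [en_eq_st (by omega), st_succ, ce_def, Cr_of_lt he]
  have h1 : x % 2 = 0 ∨ x % 2 = 1 := by omega
  rcases h1 with h1 | h1 <;> rw [h1] <;> constructor <;> omega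

theorem st_le_cs (e i : ℕ) : st h m e i ≤ cs h m e i := by
  unfold st
  omega

theorem ce_le_en (e i : ℕ) : ce h m e i ≤ en h m e i := by
  rw [en_def]
  omega

/-! ### Ancestors and nesting -/

theorem Inside.refl (e i : ℕ) : Inside e i e i := by
  refine ⟨le_rfl, ?_⟩
  simp

theorem Inside.trans {e i e' i' e'' i'' : ℕ} (h1 : Inside e i e' i') (h2 : Inside e' i' e'' i'') :
    Inside e i e'' i'' := by
  obtain ⟨h1, rfl⟩ := h1
  obtain ⟨h2, rfl⟩ := h2
  refine ⟨h1.trans h2, ?_⟩
  rw [Nat.div_div_eq_div_mul, ← pow_add]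
  congr 2
  omega

theorem Inside.parent {e i e' i' : ℕ} (h1 : Inside e i (e' + 1) i') (hlt : e < e' + 1) :
    Inside e i e' (i' / 2) := by
  obtain ⟨h1, rfl⟩ := h1
  refine ⟨by omega, ?_⟩
  rw [Nat.div_div_eq_div_mul]
  congr 1
  have : e' + 1 - e = (e' - e) + 1 := by omega
  rw [this, pow_succ]
  ring

theorem Inside.lt_pow {e i e' i' : ℕ} (h1 : Inside e i e' i') (hi : i < 2 ^ e) : i' < 2 ^ e' := by
  obtain ⟨h1, rfl⟩ := h1
  have h2 : 2 ^ e' = 2 ^ e * 2 ^ (e' - e) := by
    rw [← pow_add]
    congr 1
    omega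
  rw [h2]
  exact (Nat.div_lt_iff_lt_mul (by positivity)).1 hi

theorem Inside.pow_lt {e i e' i' : ℕ} (h1 : Inside e i e' i') (hi : i' < 2 ^ e') : i < 2 ^ e := by
  obtain ⟨h1, rfl⟩ := h1
  have h2 : 2 ^ e' = 2 ^ e * 2 ^ (e' - e) := by
    rw [← pow_add]
    congr 1
    omega
  rw [h2] at hi
  exact (Nat.div_lt_iff_lt_mul (by positivity)).2 hi

/-- the interval of a strict descendant lies in the core -/
theorem nested {e i e' i' : ℕ} (h1 : Inside e i e' i') (hlt : e < e') (he' : e' ≤ h) :
    cs h m e i ≤ st h m e' i' ∧ en h m e' i' ≤ ce h m e i := by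
  induction e' generalizing i' with
  | zero => omega
  | succ e' ih =>
    have h2 := h1.parent hlt
    have h3 := child_nested (h := h) (m := m) (e := e') (by omega) i'
    rcases Nat.lt_or_ge e e' with h4 | h4
    · have h5 := ih h2 h4 (by omega)
      have h6 := st_le_cs (h := h) (m := m) e' (i' / 2)
      have h7 := ce_le_en (h := h) (m := m) e' (i' / 2)
      constructor <;> omega
    · have h5 : e = e' := by omega
      subst h5
      obtain ⟨_, h7⟩ := h2
      simp at h7
      rw [h7] at h3
      exact h3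

/-- the core of a descendant lies in the core -/
theorem core_nested {e i e' i' : ℕ} (h1 : Inside e i e' i') (he' : e' ≤ h) :
    cs h m e i ≤ cs h m e' i' ∧ ce h m e' i' ≤ ce h m e i := by
  rcases Nat.lt_or_ge e e' with h4 | h4
  · have h5 := nested (m := m) h1 h4 he'
    have h6 := st_le_cs (h := h) (m := m) e' i'
    have h7 := ce_le_en (h := h) (m := m) e' i'
    constructor <;> omega
  · obtain ⟨h2, h3⟩ := h1
    have : e = e' := by omega
    subst this
    simp at h3
    subst h3
    exact ⟨le_rfl, le_rfl⟩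

theorem inside_root {e i : ℕ} (hi : i < 2 ^ e) : Inside 0 0 e i := by
  refine ⟨by omega, ?_⟩
  simp [Nat.div_eq_of_lt hi]

theorem ce_root (i : ℕ) : ce h m 0 i = dd h m := by
  rw [ce_def, cs_root]
  simp [dd]

theorem ce_le_dd {e i : ℕ} (he : e ≤ h) (hi : i < 2 ^ e) : ce h m e i ≤ dd h m := by
  have := (core_nested (m := m) (inside_root hi) he).2
  rw [ce_root] at this
  exact this

theorem en_le_dd {e i : ℕ} (he1 : 1 ≤ e) (he : e ≤ h) (hi : i < 2 ^ e) : en h m e i ≤ dd h m := by
  have := (nested (m := m) (inside_root hi) (by omega) he).2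
  rw [ce_root] at this
  exact this

/-- intervals of the same depth are disjoint and ordered -/
theorem disjoint_same {e i i' : ℕ} (he : 1 ≤ e) (he' : e ≤ h) (hi : i < i') (hi' : i' < 2 ^ e) :
    en h m e i ≤ st h m e i' := by
  induction e generalizing i i' with
  | zero => omega
  | succ e ih =>
    rw [en_eq_st (by omega)]
    rcases Nat.lt_or_ge (i / 2) (i' / 2) with h1 | h1
    · have h3 : 1 ≤ e := by
        rcases Nat.eq_zero_or_pos e with h0 | h0
        · subst h0
          simp at hi'
          omega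
        · exact h0
      have h2 := ih (i := i / 2) (i' := i' / 2) h3 (by omega) h1
        (by rw [pow_succ] at hi'; omega)
      have h4 := child_nested (h := h) (m := m) (e := e) (by omega) i
      have h5 := child_nested (h := h) (m := m) (e := e) (by omega) i'
      have h6 := en_eq_st (h := h) (m := m) (e := e + 1) (by omega) i
      have h7 := st_le_cs (h := h) (m := m) e (i' / 2)
      have h8 := ce_le_en (h := h) (m := m) e (i / 2)
      omega
    · have h2 : i / 2 = i' / 2 := by omega
      have h3 : i % 2 = 0 := by omega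
      have h4 : i' % 2 = 1 := by omega
      rw [st_succ, st_succ, h2, h3, h4]
      omega

/-- a boundary strictly inside two intervals of the same depth: equal nodes -/
theorem same_of_mem {e i i' t : ℕ} (he : 1 ≤ e) (he' : e ≤ h) (hi : i < 2 ^ e) (hi' : i' < 2 ^ e)
    (h1 : st h m e i < t) (h2 : t < en h m e i) (h3 : st h m e i' ≤ t) (h4 : t ≤ en h m e i') :
    i = i' := by
  rcases lt_trichotomy i i' with h5 | h5 | h5
  · have := disjoint_same (h := h) (m := m) he he' h5 hi'
    omega
  · exact h5
  · have := disjoint_same (h := h) (m := m) he he' h5 hi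
    omega

/-- every boundary lies in a wall -/
theorem exists_wall (hh : 1 ≤ h) {t : ℕ} (ht : t ≤ dd h m) : ∃ e i : ℕ, 1 ≤ e ∧ e ≤ h ∧ i < 2 ^ e ∧
    ((st h m e i ≤ t ∧ t ≤ cs h m e i) ∨ (ce h m e i ≤ t ∧ t ≤ en h m e i)) := by
  -- descend from the root
  have key : ∀ k e i : ℕ, e + k = h → i < 2 ^ e → cs h m e i ≤ t → t ≤ ce h m e i → e < h →
      ∃ e i : ℕ, 1 ≤ e ∧ e ≤ h ∧ i < 2 ^ e ∧
        ((st h m e i ≤ t ∧ t ≤ cs h m e i) ∨ (ce h m e i ≤ t ∧ t ≤ en h m e i)) := by
    intro k
    induction k with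
    | zero => intro e i h1 _ _ _ h2; omega
    | succ k ih =>
      intro e i hek hi h1 h2 he
      obtain ⟨x, hx, h3, h4⟩ : ∃ x, x < 2 ^ (e + 1) ∧ st h m (e + 1) x ≤ t ∧ t ≤ en h m (e + 1) x := by
        rcases le_total t (md h m e i) with h3 | h3
        · refine ⟨2 * i, by rw [pow_succ]; omega, ?_, ?_⟩
          · rw [st_left]; exact h1
          · rw [en_left]; exact h3
        · refine ⟨2 * i + 1, by rw [pow_succ]; omega, ?_, ?_⟩
          · rw [st_right]; exact h3
          · rw [en_right he]; exact h2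
      rcases le_total t (cs h m (e + 1) x) with h5 | h5
      · exact ⟨e + 1, x, by omega, by omega, hx, Or.inl ⟨h3, h5⟩⟩
      · rcases le_total (ce h m (e + 1) x) t with h6 | h6
        · exact ⟨e + 1, x, by omega, by omega, hx, Or.inr ⟨h6, h4⟩⟩
        · rcases Nat.lt_or_ge (e + 1) h with h7 | h7
          · exact ih (e + 1) x (by omega) hx h5 h6 h7
          · have h8 : h - (e + 1) = 0 := by omega
            have h9 : ce h m (e + 1) x = cs h m (e + 1) x := by
              rw [ce_def, h8]; rfl
            exact ⟨e + 1, x, by omega, by omega, hx, Or.inl ⟨h3, by omega⟩⟩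
  refine key h 0 0 (by omega) (by simp) ?_ ?_ hh
  · rw [cs_root]; omega
  · rw [ce_root]; exact ht

/-- a nonempty core is not inside a wall -/
theorem not_core_in_wall {e i u x : ℕ} (he1 : 1 ≤ e) (he : e ≤ h) (hi : i < 2 ^ e)
    (hu : u < h) (hx : x < 2 ^ u)
    (h1 : (st h m e i ≤ cs h m u x ∧ ce h m u x ≤ cs h m e i) ∨
      (ce h m e i ≤ cs h m u x ∧ ce h m u x ≤ en h m e i)) : False := by
  have h2 := cs_lt_ce (m := m) hu x
  have h3 := cs_eq_st (h := h) (m := m) he1 i
  rcases Nat.lt_or_ge u e with h4 | h4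
  · -- u is shallower: compare with the ancestor of (e,i) at depth u
    have h5 : Inside u (i / 2 ^ (e - u)) e i := ⟨by omega, rfl⟩
    have h6 := nested (m := m) h5 h4 he
    have h7 := h5.pow_lt hi
    rcases Nat.eq_zero_or_pos u with h0 | h0
    · subst h0
      have hx0 : x = 0 := by simpa using hx
      have h8 : i / 2 ^ (e - 0) = 0 := by simpa using h7
      rw [h8] at h6
      subst hx0
      have h9 := ce_le_en (h := h) (m := m) e i
      have h10 := cs_le_ce (h := h) (m := m) e i
      have h11 := Wd_pos h m (h - e)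
      have h12 := en_def (h := h) (m := m) e i
      rcases h1 with h1 | h1 <;> omega
    · rcases eq_or_ne x (i / 2 ^ (e - u)) with h8 | h8
      · subst h8
        have h10 := cs_le_ce (h := h) (m := m) e i
        have h11 := Wd_pos h m (h - e)
        have h12 := en_def (h := h) (m := m) e i
        rcases h1 with h1 | h1 <;> omega
      · have h13 := st_le_cs (h := h) (m := m) u x
        have h14 := ce_le_en (h := h) (m := m) u x
        have h15 := st_le_cs (h := h) (m := m) u (i / 2 ^ (e - u))
        have h16 := ce_le_en (h := h) (m := m) u (i / 2 ^ (e - u))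
        have h17 := Wd_pos h m (h - u)
        have h18 := cs_eq_st (h := h) (m := m) h0 x
        have h19 := en_def (h := h) (m := m) u x
        have h10 := cs_le_ce (h := h) (m := m) e i
        have h12 := en_def (h := h) (m := m) e i
        rcases lt_or_gt_of_ne h8 with h9 | h9
        · have := disjoint_same (h := h) (m := m) h0 (by omega) h9 h7
          rcases h1 with h1 | h1 <;> omega
        · have := disjoint_same (h := h) (m := m) h0 (by omega) h9 hx
          rcases h1 with h1 | h1 <;> omega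
  · -- u is at least as deep: the ancestor of (u,x) at depth e
    have h5 : Inside e (x / 2 ^ (u - e)) u x := ⟨h4, rfl⟩
    have h6 := core_nested (h := h) (m := m) h5 (by omega)
    have h7 := h5.pow_lt hx
    rcases eq_or_ne i (x / 2 ^ (u - e)) with h8 | h8
    · rw [← h8] at h6
      rcases h1 with h1 | h1 <;> omega
    · have h10 := cs_le_ce (h := h) (m := m) e i
      have h12 := en_def (h := h) (m := m) e i
      have h13 := st_le_cs (h := h) (m := m) e (x / 2 ^ (u - e))
      have h14 := ce_le_en (h := h) (m := m) e (x / 2 ^ (u - e))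
      rcases lt_or_gt_of_ne h8 with h9 | h9
      · have := disjoint_same (h := h) (m := m) he1 he h9 h7
        rcases h1 with h1 | h1 <;> omega
      · have := disjoint_same (h := h) (m := m) he1 he h9 hi
        rcases h1 with h1 | h1 <;> omega

/-! ### Index of a boundary -/

theorem idx_le (e i t : ℕ) : idx h m e i t ≤ Wd h m (h - e) := by
  unfold idx
  omega

/-- outside of the open interval the index is zero -/
theorem idx_outside {e i t : ℕ} (h1 : t ≤ st h m e i ∨ en h m e i ≤ t) : idx h m e i t = 0 := by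
  unfold idx
  rcases h1 with h1 | h1 <;> omega

/-- in the core the index is the full width -/
theorem idx_core {e i t : ℕ} (he : 1 ≤ e) (h1 : cs h m e i ≤ t) (h2 : t ≤ ce h m e i) :
    idx h m e i t = Wd h m (h - e) := by
  have h3 := cs_eq_st (h := h) (m := m) he i
  have h4 := en_def (h := h) (m := m) e i
  unfold idx
  omega

/-- in the left wall -/
theorem idx_left {e i t : ℕ} (he : 1 ≤ e) (h2 : t ≤ cs h m e i) :
    idx h m e i t = t - st h m e i := by
  have h3 := cs_eq_st (h := h) (m := m) he i
  have h4 := en_def (h := h) (m := m) e i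
  have h5 := cs_le_ce (h := h) (m := m) e i
  unfold idx
  omega

/-- in the right wall -/
theorem idx_right {e i t : ℕ} (he : 1 ≤ e) (h1 : ce h m e i ≤ t) :
    idx h m e i t = en h m e i - t := by
  have h3 := cs_eq_st (h := h) (m := m) he i
  have h4 := en_def (h := h) (m := m) e i
  have h5 := cs_le_ce (h := h) (m := m) e i
  unfold idx
  omega

/-- in the interval of a strict descendant the index is the full width -/
theorem idx_anc {e i e' i' t : ℕ} (he : 1 ≤ e) (h0 : Inside e i e' i') (hlt : e < e') (he' : e' ≤ h)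
    (h1 : st h m e' i' ≤ t) (h2 : t ≤ en h m e' i') : idx h m e i t = Wd h m (h - e) := by
  have := nested (m := m) h0 hlt he'
  exact idx_core he (by omega) (by omega)

/-- if `t` is in the closed interval of `(e', i')`, the index for every node which is neither
`(e', i')`, nor an ancestor, nor a descendant of it is zero -/
theorem idx_other {e i e' i' t : ℕ} (he : 1 ≤ e) (he2 : e ≤ h) (hi : i < 2 ^ e) (he1' : 1 ≤ e')
    (he' : e' ≤ h) (hi' : i' < 2 ^ e') (h0 : ¬ Inside e i e' i') (h0' : ¬ Inside e' i' e i)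
    (h1 : st h m e' i' ≤ t) (h2 : t ≤ en h m e' i') : idx h m e i t = 0 := by
  apply idx_outside
  by_contra hcon
  push Not at hcon
  obtain ⟨h3, h4⟩ := hcon
  rcases le_total e e' with h5 | h5
  · have h6 : Inside e (i' / 2 ^ (e' - e)) e' i' := ⟨h5, rfl⟩
    have h7 := h6.pow_lt hi'
    have h8 : st h m e (i' / 2 ^ (e' - e)) ≤ t ∧ t ≤ en h m e (i' / 2 ^ (e' - e)) := by
      rcases Nat.lt_or_ge e e' with h9 | h9
      · have h10 := nested (m := m) h6 h9 he'
        have h11 := st_le_cs (h := h) (m := m) e (i' / 2 ^ (e' - e))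
        have h12 := ce_le_en (h := h) (m := m) e (i' / 2 ^ (e' - e))
        constructor <;> omega
      · have : e = e' := by omega
        subst this
        simp
        exact ⟨h1, h2⟩
    have h9 := same_of_mem (h := h) (m := m) he he2 hi h7 h3 h4 h8.1 h8.2
    exact h0 (h9 ▸ h6)
  · have h6 : Inside e' (i / 2 ^ (e - e')) e i := ⟨h5, rfl⟩
    have h7 := h6.pow_lt hi
    have h8 : st h m e' (i / 2 ^ (e - e')) < t ∧ t < en h m e' (i / 2 ^ (e - e')) := by
      rcases Nat.lt_or_ge e' e with h9 | h9
      · have h10 := nested (m := m) h6 h9 he2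
        have h11 := st_le_cs (h := h) (m := m) e' (i / 2 ^ (e - e'))
        have h12 := ce_le_en (h := h) (m := m) e' (i / 2 ^ (e - e'))
        constructor <;> omega
      · have : e = e' := by omega
        subst this
        simp
        exact ⟨h3, h4⟩
    have h9 := same_of_mem (h := h) (m := m) he1' he' h7 hi' h8.1 h8.2 h1 h2
    exact h0' (h9 ▸ h6)

end Pool.Agent.H81.NCH
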