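import Pool.Agent.H81.NCH.Stmts
import Pool.Agent.H81.NCH.Base

set_option autoImplicit false

namespace Pool.Agent.H81.NCH

open Pool.Agent.H80

universe u

namespace FIN

theorem pow_bounds {s h : ℕ} (hs : s ≠ 0) (hh : h = Nat.log 2 s / 1100) :
    2 ^ (1100 * h) ≤ s ∧ s < 2 ^ (1100 * (h + 1)) := by
  constructor
  · refine le_trans (Nat.pow_le_pow_right (by norm_num) ?_) (Nat.pow_log_le_self 2 hs)
    rw [hh]
    exact Nat.mul_div_le _ _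
  · refine lt_of_lt_of_le (Nat.lt_pow_succ_log_self (b := 2) (by norm_num) s) ?_
    refine Nat.pow_le_pow_right (by norm_num) ?_
    have := Nat.lt_mul_div_succ (Nat.log 2 s) (show 0 < 1100 by norm_num)
    rw [hh]
    exact this

theorem third (h : ℕ) (hh : 30 ≤ h) : (h : ℝ) ^ 2 / 4 ≤ ((h ^ 2 / 3 : ℕ) : ℝ) := by
  have h9 : h ^ 2 < 3 * (h ^ 2 / 3 + 1) := Nat.lt_mul_div_succ (h ^ 2) (by norm_num)
  have h11 : (30 : ℝ) ≤ h := by exact_mod_cast hh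
  have h14 : (900 : ℝ) ≤ (h : ℝ) ^ 2 := by nlinarith
  have h10 : ((h ^ 2 : ℕ) : ℝ) < ((3 * (h ^ 2 / 3 + 1) : ℕ) : ℝ) := Nat.cast_lt.2 h9
  rw [Nat.cast_pow, Nat.cast_mul, Nat.cast_add, Nat.cast_one, Nat.cast_ofNat] at h10
  linarith

theorem lower {s h t : ℕ} (hh : 30 ≤ h) (hs : 0 < s) (h1 : s < 2 ^ (1100 * (h + 1)))
    (h2 : 2 ^ (h ^ 2 / 3) ≤ t) :
    (s : ℝ) ^ ((1 / 19360000 : ℝ) * Real.log s) ≤ (t : ℝ) := by
  have hs0 : (0 : ℝ) < s := by exact_mod_cast hs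
  have hs1 : (1 : ℝ) ≤ s := by exact_mod_cast hs
  have hl0 : 0 ≤ Real.log s := Real.log_nonneg hs1
  have hlog2 : 0 < Real.log 2 := Real.log_pos (by norm_num)
  have hlog2' : Real.log 2 ≤ 1 := by
    have := Real.log_two_lt_d9
    linarith
  have hl1 : Real.log s ≤ (2200 * h) * Real.log 2 := by
    have h3 : (s : ℝ) ≤ (2 : ℝ) ^ (1100 * (h + 1)) := by exact_mod_cast h1.le
    have h4 := Real.log_le_log hs0 h3
    rw [Real.log_pow] at h4
    refine h4.trans (mul_le_mul_of_nonneg_right ?_ hlog2.le)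
    have h5 : 1100 * (h + 1) ≤ 2200 * h := by omega
    exact_mod_cast h5
  have h6 : (2 : ℝ) ^ (h ^ 2 / 3) ≤ (t : ℝ) := by exact_mod_cast h2
  refine le_trans ?_ h6
  rw [Real.rpow_def_of_pos hs0]
  have h7 : (2 : ℝ) ^ (h ^ 2 / 3) = Real.exp (Real.log 2 * ((h ^ 2 / 3 : ℕ) : ℝ)) := by
    rw [← Real.rpow_def_of_pos (by norm_num : (0 : ℝ) < 2), Real.rpow_natCast]
  rw [h7]
  apply Real.exp_le_exp.2
  have h8 : (h : ℝ) ^ 2 / 4 ≤ ((h ^ 2 / 3 : ℕ) : ℝ) := third h hh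
  have h12 : Real.log s ^ 2 ≤ ((2200 * h) * Real.log 2) ^ 2 := pow_le_pow_left₀ hl0 hl1 2
  have h13 : Real.log 2 * Real.log 2 ≤ Real.log 2 * 1 := mul_le_mul_of_nonneg_left hlog2' hlog2.le
  calc Real.log s * ((1 / 19360000 : ℝ) * Real.log s)
      = (1 / 19360000 : ℝ) * Real.log s ^ 2 := by ring
    _ ≤ (1 / 19360000 : ℝ) * ((2200 * h) * Real.log 2) ^ 2 :=
        mul_le_mul_of_nonneg_left h12 (by norm_num)
    _ = ((h : ℝ) ^ 2 / 4) * (Real.log 2 * Real.log 2) := by ring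
    _ ≤ ((h : ℝ) ^ 2 / 4) * (Real.log 2 * 1) := mul_le_mul_of_nonneg_left h13 (by positivity)
    _ = Real.log 2 * ((h : ℝ) ^ 2 / 4) := by ring
    _ ≤ Real.log 2 * ((h ^ 2 / 3 : ℕ) : ℝ) := mul_le_mul_of_nonneg_left h8 hlog2.le

end FIN

theorem fin_thm (hLOW : LOWStmt.{u}) (hUPP : UPPStmt.{u}) (hCOE : COEStmt.{u}) (hSIZ : SIZStmt) :
    FINStmt.{u} := by
  refine ⟨1 / 19360000, by norm_num, 2 ^ (1100 * 30), ?_⟩
  intro K _ s hs
  have hs0 : 0 < s := lt_of_lt_of_le (by positivity) hs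
  set h : ℕ := Nat.log 2 s / 1100 with hh
  obtain ⟨hb1, hb2⟩ := FIN.pow_bounds hs0.ne' hh
  have h30 : 30 ≤ h := by
    have h1 : 1100 * 30 ≤ Nat.log 2 s := Nat.le_log_of_pow_le (by norm_num) hs
    rw [hh]
    exact (Nat.le_div_iff_mul_le (by norm_num)).2 (by omega)
  set m : ℕ := 2 ^ (50 * h) with hm
  have hm1 : 1 ≤ m := Nat.one_le_two_pow
  have hm2 : 2 ≤ m := by
    calc 2 = 2 ^ 1 := by norm_num
      _ ≤ 2 ^ (50 * h) := Nat.pow_le_pow_right (by norm_num) (by omega)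
  have : NeZero (m ^ 4) := ⟨by positivity⟩
  have hle : ∀ k : ℕ, k ≤ 1100 * h → 2 ^ k ≤ s := fun k hk =>
    (Nat.pow_le_pow_right (by norm_num) hk).trans hb1
  refine ⟨m ^ 4, dd h m, Sp K h m h, ?_, ?_, ?_, ?_, ?_⟩
  · rw [hm, ← pow_mul]
    exact hle _ (by omega)
  · refine (hSIZ h m (by omega) hm1).1.trans ?_
    have h1 : 4 ^ h * (32 * (NN h * m)) = 2 ^ (2 * h + 5 + (h + 3) + 50 * h) := by
      rw [hm]
      unfold NN
      have h4 : (4 : ℕ) ^ h = 2 ^ (2 * h) := by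
        rw [pow_mul]
        norm_num
      rw [h4]
      have h5 : (32 : ℕ) = 2 ^ 5 := by norm_num
      rw [h5, pow_add 2 (2 * h + 5 + (h + 3)) (50 * h), pow_add 2 (2 * h + 5) (h + 3),
        pow_add 2 (2 * h) 5]
      ring
    rw [h1]
    exact hle _ (by omega)
  · exact (hCOE K h m (m ^ 4) (by omega) hm1 rfl).1
  · obtain ⟨D, h1, h2⟩ := hUPP K h m (m ^ 4) (by omega) hm2 rfl
    refine ⟨D, h1, h2.trans ?_⟩
    have h3 : (2 ^ h * m) ^ 20 = 2 ^ ((h + 50 * h) * 20) := by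
      rw [hm, ← pow_add, ← pow_mul]
    rw [h3]
    exact hle _ (by omega)
  · intro D hD hc
    exact FIN.lower h30 hs0 hb2 (hLOW K h (m ^ 4) h30 rfl D hD hc)

end Pool.Agent.H81.NCH
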