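import Pool.Agent.H81.NCH.Stmts
import Pool.Agent.H81.NCH.Base

set_option autoImplicit false

namespace Pool.Agent.H81.NCH

namespace GSP

variable {h m : ℕ}

theorem alive_phi {r : ℕ → ℕ → ℕ} {s t : ℕ} (hst : |psi h m r s - psi h m r t| < (KK h : ℤ)) :
    |phi h m r s - phi h m r t| ≤ (KK h : ℤ) := by
  have h1 : ∀ u, lam h m u = 0 ∨ lam h m u = 1 := by
    intro u
    unfold lam
    split_ifs
    · exact Or.inr rfl
    · exact Or.inl rfl
  unfold psi at hst
  rw [abs_lt] at hst
  rw [abs_le]
  rcases h1 s with h2 | h2 <;> rcases h1 t with h3 | h3 <;> rw [h2, h3] at hst <;>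
    constructor <;> omega

theorem div_eq {e i x D : ℕ} (hx : x < 512) (hD : D ≤ e) :
    (512 * i + x) / 2 ^ (e + 9 - D) = i / 2 ^ (e - D) := by
  have h1 : e + 9 - D = 9 + (e - D) := by omega
  rw [h1, pow_add, ← Nat.div_div_eq_div_mul]
  have h2 : (512 * i + x) / 2 ^ 9 = i := by
    norm_num
    omega
  rw [h2]

theorem An_le {e i x t : ℕ} (hx : x < 512) :
    An h m (e + 9) (512 * i + x) t ≤ An h m e i t + 9 := by
  unfold An
  have h1 : (Finset.range (e + 9)).filter
      (fun D => 1 ≤ D ∧ t < cs h m D ((512 * i + x) / 2 ^ (e + 9 - D))) ⊆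
      (Finset.range e).filter (fun D => 1 ≤ D ∧ t < cs h m D (i / 2 ^ (e - D))) ∪
        Finset.Ico e (e + 9) := by
    intro D hD
    rw [Finset.mem_filter, Finset.mem_range] at hD
    rw [Finset.mem_union, Finset.mem_filter, Finset.mem_range, Finset.mem_Ico]
    rcases Nat.lt_or_ge D e with h2 | h2
    · left
      rw [div_eq hx h2.le] at hD
      exact ⟨h2, hD.2⟩
    · right
      exact ⟨h2, hD.1⟩
  refine (Finset.card_le_card h1).trans ((Finset.card_union_le _ _).trans ?_)
  rw [Nat.card_Ico]
  omega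

theorem Bn_le {e i x t : ℕ} (hx : x < 512) :
    Bn h m (e + 9) (512 * i + x) t ≤ Bn h m e i t + 9 := by
  unfold Bn
  have h1 : (Finset.range (e + 9)).filter
      (fun D => 1 ≤ D ∧ ce h m D ((512 * i + x) / 2 ^ (e + 9 - D)) < t) ⊆
      (Finset.range e).filter (fun D => 1 ≤ D ∧ ce h m D (i / 2 ^ (e - D)) < t) ∪
        Finset.Ico e (e + 9) := by
    intro D hD
    rw [Finset.mem_filter, Finset.mem_range] at hD
    rw [Finset.mem_union, Finset.mem_filter, Finset.mem_range, Finset.mem_Ico]
    rcases Nat.lt_or_ge D e with h2 | h2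
    · left
      rw [div_eq hx h2.le] at hD
      exact ⟨h2, hD.2⟩
    · right
      exact ⟨h2, hD.1⟩
  refine (Finset.card_le_card h1).trans ((Finset.card_union_le _ _).trans ?_)
  rw [Nat.card_Ico]
  omega

theorem LHist.mono {r : ℕ → ℕ → ℕ} {e i p b b1 b0 : ℕ} (hL : LHist h m r e i p b b0)
    (hb : b1 ≤ b) : LHist h m r e i p b1 b0 := by
  obtain ⟨c, b', h1, h2⟩ := hL
  refine ⟨c, b', fun x hx => ?_, h2⟩
  obtain ⟨h3, h4, h5, h6, h7⟩ := h1 x hx
  exact ⟨h3, h4, h5, hb.trans h6, h7⟩

theorem RHist.mono {r : ℕ → ℕ → ℕ} {e i q a a1 a0 : ℕ} (hR : RHist h m r e i q a a0)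
    (ha : a ≤ a1) : RHist h m r e i q a1 a0 := by
  obtain ⟨c, a', h1, h2⟩ := hR
  refine ⟨c, a', fun x hx => ?_, h2⟩
  obtain ⟨h3, h4, h5, h6, h7⟩ := h1 x hx
  exact ⟨h3, h4, h5, h6, h7.trans ha⟩

theorem LHist.step {r : ℕ → ℕ → ℕ} {e i p b b0 c : ℕ} (hL : LHist h m r e i p b b0)
    (hb : b ≤ b0) (h1 : cs h m (e + 9) (512 * i + p) < c) (h2 : c < ce h m (e + 9) (512 * i + p))
    (h3 : |phi h m r c - phi h m r b| ≤ (KK h : ℤ)) : LHist h m r e i (p + 1) b b0 := by
  obtain ⟨cf, b', h4, h5⟩ := hL
  refine ⟨fun x => if x < p then cf x else c, fun x => if x < p then b' x else b, ?_, ?_⟩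
  · intro x hx
    rcases Nat.lt_or_ge x p with h6 | h6
    · simp only [if_pos h6]
      exact h4 x h6
    · have h7 : x = p := by omega
      subst h7
      simp only [lt_irrefl, if_false]
      exact ⟨h1, h2, h3, le_rfl, hb⟩
  · intro x y hxy hy
    rcases Nat.lt_or_ge y p with h6 | h6
    · simp only [if_pos h6, if_pos (lt_of_le_of_lt hxy h6)]
      exact h5 x y hxy h6
    · have h7 : ¬ y < p := by omega
      simp only [if_neg h7]
      rcases Nat.lt_or_ge x p with h8 | h8
      · simp only [if_pos h8]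
        exact (h4 x h8).2.2.2.1
      · have h9 : ¬ x < p := by omega
        simp only [if_neg h9]
        exact le_rfl

theorem RHist.step {r : ℕ → ℕ → ℕ} {e i q a a0 c : ℕ} (hR : RHist h m r e i q a a0)
    (ha : a0 ≤ a) (h1 : cs h m (e + 9) (512 * i + (511 - q)) < c)
    (h2 : c < ce h m (e + 9) (512 * i + (511 - q)))
    (h3 : |phi h m r a - phi h m r c| ≤ (KK h : ℤ)) : RHist h m r e i (q + 1) a a0 := by
  obtain ⟨cf, a', h4, h5⟩ := hR
  refine ⟨fun x => if x < q then cf x else c, fun x => if x < q then a' x else a, ?_, ?_⟩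
  · intro x hx
    rcases Nat.lt_or_ge x q with h6 | h6
    · simp only [if_pos h6]
      exact h4 x h6
    · have h7 : x = q := by omega
      subst h7
      simp only [lt_irrefl, if_false]
      exact ⟨h1, h2, h3, ha, le_rfl⟩
  · intro x y hxy hy
    rcases Nat.lt_or_ge y q with h6 | h6
    · simp only [if_pos h6, if_pos (lt_of_le_of_lt hxy h6)]
      exact h5 x y hxy h6
    · have h7 : ¬ y < q := by omega
      simp only [if_neg h7]
      rcases Nat.lt_or_ge x q with h8 | h8
      · simp only [if_pos h8]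
        exact (h4 x h8).2.2.2.2
      · have h9 : ¬ x < q := by omega
        simp only [if_neg h9]
        exact le_rfl

end GSP

theorem gsp_thm (hGST : GSTStmt) (hZL : ZLStmt) (hZR : ZRStmt) : GSPStmt := by
  intro h m r g e i a c b hm hRB hg30 hGood hac hcb hal hns
  obtain ⟨he, hi, hbd, a0, b0, p, q, ha0, hb0, hb0d, hg, hpq, hap, hqb, hL, hR⟩ := hGood
  have hU : ∀ x < 512, 512 * i + x < 2 ^ (e + 9) := by
    intro x hx
    rw [pow_add]
    norm_num
    omega
  have hlt : ∀ x, cs h m (e + 9) x < ce h m (e + 9) x := fun x => cs_lt_ce (by omega) x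
  have hord : ∀ x y, x < y → y < 512 →
      ce h m (e + 9) (512 * i + x) ≤ cs h m (e + 9) (512 * i + y) := by
    intro x y hxy hy
    have h1 := disjoint_same (h := h) (m := m) (e := e + 9) (i := 512 * i + x)
      (i' := 512 * i + y) (by omega) (by omega) (by omega) (hU y hy)
    have h2 := ce_le_en (h := h) (m := m) (e + 9) (512 * i + x)
    have h3 := st_le_cs (h := h) (m := m) (e + 9) (512 * i + y)
    omega
  have hphi1 := GSP.alive_phi hal.1
  have hphi2 := GSP.alive_phi hal.2
  have he30 : e + 30 ≤ h := by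
    unfold Pot at hg
    omega
  have hins : ∀ x < 512, Inside e i (e + 9) (512 * i + x) := by
    intro x hx
    refine ⟨by omega, ?_⟩
    have h1 : e + 9 - e = 9 := by omega
    rw [h1]
    norm_num
    omega
  have hA0 : ∀ t, a0 ≤ t → An h m e i t ≤ An h m e i a0 := by
    intro t ht
    unfold An
    apply Finset.card_le_card
    intro D hD
    rw [Finset.mem_filter] at hD ⊢
    exact ⟨hD.1, hD.2.1, lt_of_le_of_lt ht hD.2.2⟩
  rcases Nat.lt_or_ge (cs h m (e + 9) (512 * i + p)) c with h1 | h1
  · rcases Nat.lt_or_ge c (ce h m (e + 9) (512 * i + p)) with h2 | h2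
    · -- left cut
      have hL' := GSP.LHist.step hL hb0 h1 h2 hphi2
      have hR' := GSP.RHist.mono hR hac
      have hcs : c ≤ cs h m (e + 9) (512 * i + (p + 1)) := by
        have := hord p (p + 1) (by omega) (by omega)
        omega
      rcases Nat.lt_or_ge (p + 1 + q) 511 with h3 | h3
      · exact ⟨e, i, Inside.refl e i, Or.inr ⟨he, hi, hbd, a0, b0, p + 1, q, by omega, hb0, hb0d,
          hg, by omega, hcs, hqb, hL', hR'⟩⟩
      · have h4 : 511 - q = p + 1 := by omega
        rw [h4] at hqb
        have hzl := hZL h m r e i (p + 1) b b0 hm hRB he hi (by omega) hqb hb0 hb0d hL'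
        have hzr := hZR h m r e i q c a0 hm hRB he hi (by omega) (by rw [h4]; exact hcs)
          (by omega) (by omega) hR'
        refine ⟨e + 9, 512 * i + (p + 1), hins _ (by omega), Or.inr ?_⟩
        refine (hGST h m r g (e + 9) (512 * i + (p + 1)) c b hm).1 (by omega) (hU _ (by omega)) hcs
          hqb hbd ?_
        have hA := GSP.An_le (h := h) (m := m) (e := e) (i := i) (x := p + 1) (t := c) (by omega)
        have hB := GSP.Bn_le (h := h) (m := m) (e := e) (i := i) (x := p + 1) (t := b) (by omega)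
        unfold Pot at hg ⊢
        push_cast
        omega
    · -- the first core is on the left side
      have hbig1 : BigIn h m e i a c := ⟨p, by omega, hap, h2⟩
      have h3 : cs h m (e + 9) (512 * i + (511 - q)) < c := by
        by_contra hcon
        push Not at hcon
        exact hns ⟨hbig1, ⟨511 - q, by omega, hcon, hqb⟩⟩
      have hL' := GSP.LHist.mono hL hcb
      rcases Nat.lt_or_ge c (ce h m (e + 9) (512 * i + (511 - q))) with h4 | h4
      · -- right cut
        have hR' := GSP.RHist.step hR ha0 h3 h4 hphi1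
        rcases Nat.lt_or_ge (p + (q + 1)) 511 with h5 | h5
        · refine ⟨e, i, Inside.refl e i, Or.inl ⟨he, hi, by omega, a0, b0, p, q + 1, ha0, by omega,
            hb0d, hg, by omega, hap, ?_, hL', hR'⟩⟩
          have := hord (511 - (q + 1)) (511 - q) (by omega) (by omega)
          omega
        · have h6 : 511 - (q + 1) = p := by omega
          have hzl := hZL h m r e i p c b0 hm hRB he hi (by omega) h2 (by omega) hb0d hL'
          have hzr := hZR h m r e i (q + 1) a a0 hm hRB he hi (by omega) (by rw [h6]; exact hap)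
            ha0 (by omega) hR'
          refine ⟨e + 9, 512 * i + p, hins _ (by omega), Or.inl ?_⟩
          refine (hGST h m r g (e + 9) (512 * i + p) a c hm).1 (by omega) (hU _ (by omega)) hap
            h2 (by omega) ?_
          have hA := GSP.An_le (h := h) (m := m) (e := e) (i := i) (x := p) (t := a) (by omega)
          have hB := GSP.Bn_le (h := h) (m := m) (e := e) (i := i) (x := p) (t := c) (by omega)
          unfold Pot at hg ⊢
          push_cast
          omega
      · -- everything is on the left side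
        exact ⟨e, i, Inside.refl e i, Or.inl ⟨he, hi, by omega, a0, b0, p, q, ha0, by omega, hb0d,
          hg, hpq, hap, h4, hL', hR⟩⟩
  · -- everything is on the right side
    exact ⟨e, i, Inside.refl e i, Or.inr ⟨he, hi, hbd, a0, b0, p, q, by omega, hb0, hb0d, hg, hpq,
      h1, hqb, hL, GSP.RHist.mono hR hac⟩⟩

end Pool.Agent.H81.NCH
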