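import Pool.Agent.H81.NCH.Stmts
import Pool.Agent.H81.NCH.Base

set_option autoImplicit false

namespace Pool.Agent.H81.NCH

open Pool.Agent.H80

universe u

namespace LOW

theorem seg_length {n : ℕ} (w : ℕ → Fin n) (a k : ℕ) : (seg w a k).length = k := by
  unfold seg
  simp [FreeMonoid.length]

theorem Sb_card_le {K : Type u} [Field K] {n : ℕ} {D : Circuit K (Fin n)} (X : HVal D) (v : D.V) :
    (Sb X v).card ≤ D.size := by
  classical
  unfold Circuit.size
  exact Finset.card_le_univ _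

theorem pot_root (h m a b : ℕ) : Pot h m 0 0 a b = h := by
  unfold Pot An Bn
  simp

theorem numeric {h s : ℕ} (hh : 30 ≤ h)
    (h1 : (1 : ℝ) ≤ (s : ℝ) * (2 ^ (12 * h + 36) / ((2 ^ (50 * h) : ℕ) : ℝ)) ^ (h / 30)) :
    2 ^ (h ^ 2 / 3) ≤ s := by
  set j := h / 30 with hj
  have hj1 : 1 ≤ j := by omega
  have hj2 : h < 60 * j := by omega
  have h2 : (2 : ℝ) ^ (12 * h + 36) / ((2 ^ (50 * h) : ℕ) : ℝ) ≤ 1 / 2 ^ (30 * h) := by
    rw [div_le_div_iff₀ (by positivity) (by positivity)]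
    push_cast
    rw [one_mul, ← pow_add]
    exact pow_le_pow_right₀ (by norm_num) (by omega)
  have h3 : ((2 : ℝ) ^ (12 * h + 36) / ((2 ^ (50 * h) : ℕ) : ℝ)) ^ j ≤ (1 / 2 ^ (30 * h)) ^ j :=
    pow_le_pow_left₀ (by positivity) h2 j
  have h4 : (1 : ℝ) ≤ (s : ℝ) * (1 / 2 ^ (30 * h)) ^ j :=
    h1.trans (mul_le_mul_of_nonneg_left h3 (by positivity))
  have h5 : (2 : ℝ) ^ (30 * h * j) ≤ s := by
    rw [one_div, inv_pow, ← pow_mul] at h4
    have h6 : (0 : ℝ) < 2 ^ (30 * h * j) := by positivity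
    calc (2 : ℝ) ^ (30 * h * j) = 1 * 2 ^ (30 * h * j) := by ring
      _ ≤ ((s : ℝ) * (2 ^ (30 * h * j))⁻¹) * 2 ^ (30 * h * j) :=
        mul_le_mul_of_nonneg_right h4 h6.le
      _ = s := by
        rw [mul_assoc, inv_mul_cancel₀ h6.ne', mul_one]
  have h6 : (2 : ℕ) ^ (30 * h * j) ≤ s := by exact_mod_cast h5
  refine le_trans (Nat.pow_le_pow_right (by norm_num) ?_) h6
  have h7 : h ^ 2 / 3 ≤ h ^ 2 / 2 := Nat.div_le_div_left (by norm_num) (by norm_num)
  refine h7.trans ?_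
  apply Nat.div_le_of_le_mul
  nlinarith

end LOW

theorem low_thm (hREC : RECStmt.{u}) (hCOE : COEStmt.{u}) (hRFU : RFUStmt.{u}) (hAVA : AVAStmt) :
    LOWStmt.{u} := by
  classical
  intro K _ h n _ hh hn D hD ⟨val, hval, hhom, hout⟩
  set m : ℕ := 2 ^ (50 * h) with hm
  have hm1 : 1 ≤ m := Nat.one_le_two_pow
  choose deg hdeg using hhom
  let X : HVal D := ⟨val, hval, deg, hdeg⟩
  obtain ⟨hho, hco⟩ := hCOE K h m n (by omega) hm1 hn
  -- a valid word
  have hrf : ∀ r : ℕ → ℕ → ℕ, 1 ≤ rho h m r 0 (dd h m)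
      (fun w : ℕ → Fin n => if Valid h m w then (1 : K) else 0) := fun r =>
    hRFU K h m n r (by omega) hm1 hn
  obtain ⟨w0, hw0⟩ : ∃ w : ℕ → Fin n, Valid h m w := by
    by_contra hcon
    push Not at hcon
    have h1 := hrf (fun _ _ => 1)
    have h2 : (fun w : ℕ → Fin n => if Valid h m w then (1 : K) else 0) = fun _ => 0 := by
      funext w
      simp [hcon w]
    rw [h2] at h1
    unfold rho rk at h1
    have h3 : (Matrix.of fun (_ _ : Fin (dd h m) → Fin n) => (0 : K)) = 0 := rfl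
    simp only [h3, Matrix.rank_zero] at h1
    norm_num at h1
  have hdout : X.deg D.out = dd h m := by
    have h1 : (val D.out).coeff (seg w0 0 (dd h m)) ≠ 0 := by
      rw [hout, hco w0, if_pos hw0]
      exact one_ne_zero
    have h2 := hdeg D.out _ h1
    rw [LOW.seg_length] at h2
    exact h2.symm
  have hnz : X.val D.out ≠ 0 := by
    intro h0
    have h1 : (val D.out).coeff (seg w0 0 (dd h m)) = 0 := by
      have h2 : val D.out = 0 := h0
      rw [h2]
      rfl
    rw [hout, hco w0, if_pos hw0] at h1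
    exact one_ne_zero h1
  have hFF : FF X D.out 0 = fun w : ℕ → Fin n => if Valid h m w then (1 : K) else 0 := by
    funext w
    show (X.val D.out).coeff (seg w 0 (X.deg D.out)) = _
    rw [hdout]
    have h2 : X.val D.out = Sp K h m h := hout
    rw [h2, hco w]
  have hcl := hREC K h m n D X (h / 30) (by omega)
    (by
      rw [hm]
      exact Nat.pow_le_pow_right (by norm_num) (by omega)) hn hD
  let ω : Om h m := fun _ => ⟨0, hm1⟩
  have h1 := hcl 0 0 D.out 0 ω (by norm_num) (by omega) hnz (by rw [cs_root])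
    (by rw [ce_root, hdout]; omega) (by rw [hdout]; omega)
    (by
      rw [LOW.pot_root]
      have h2 : 30 * (h / 30) ≤ h := Nat.mul_div_le h 30
      exact_mod_cast h2)
  rw [hFF, hdout, zero_add] at h1
  obtain ⟨hA1, hA2, -⟩ := hAVA h m (Inside 0 0) hm1
  have h2 : (1 : ℝ) ≤ avg (Inside 0 0) (fun ω' => rho h m (rr ω') 0 (dd h m)
      (fun w : ℕ → Fin n => if Valid h m w then (1 : K) else 0)) ω := by
    rw [← hA2 1 ω]
    exact hA1 _ _ ω (fun ω' => hrf (rr ω'))
  have h3 : ((Sb X D.out).card : ℝ) ≤ (D.size : ℝ) := by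
    exact_mod_cast LOW.Sb_card_le X D.out
  refine LOW.numeric hh ?_
  refine (h2.trans h1).trans ?_
  exact mul_le_mul_of_nonneg_right h3 (by positivity)

end Pool.Agent.H81.NCH
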