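import Pool.Agent.H1.NCH.CNT
import Pool.Agent.H1.NCH.ONE
import Pool.Agent.H12.NCH.CLP
import Pool.Agent.H12.NCH.COE
import Pool.Agent.H12.NCH.SLD
import Pool.Agent.H2.NCH.RA1
import Pool.Agent.H2.NCH.RA2
import Pool.Agent.H20.NCH.WSB
import Pool.Agent.H25.NCH.LIN
import Pool.Agent.H33.NCH.KPA
import Pool.Agent.H33.NCH.LVF
import Pool.Agent.H33.NCH.UPV
import Pool.Agent.H33.NCH.WSU
import Pool.Agent.H4.NCH.ALV
import Pool.Agent.H4.NCH.TYP
import Pool.Agent.H40.NCH.GST
import Pool.Agent.H40.NCH.KPB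
import Pool.Agent.H40.NCH.LMD
import Pool.Agent.H40.NCH.SIZ
import Pool.Agent.H40.NCH.WTS
import Pool.Agent.H56.NCH.UPP
import Pool.Agent.H57.NCH.CLS
import Pool.Agent.H57.NCH.POT
import Pool.Agent.H58.NCH.AVA
import Pool.Agent.H58.NCH.LOC
import Pool.Agent.H62.NCH.PRV
import Pool.Agent.H62.NCH.REC
import Pool.Agent.H7.NCH.RKA
import Pool.Agent.H74.NCH.FAR
import Pool.Agent.H74.NCH.RCI
import Pool.Agent.H81.NCH.FIN
import Pool.Agent.H81.NCH.GSP
import Pool.Agent.H81.NCH.LOW
import Pool.Agent.H86.NCH.AVI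
import Pool.Agent.H87.NCH.KPC
import Pool.Agent.H87.NCH.LVG
import Pool.Agent.H89.NCH.RKB
import Pool.Agent.H89.NCH.RKI
import Pool.Agent.H89.NCH.RKM
import Pool.Agent.H93.NCH.PRD
import Pool.Agent.H95.NCH.AVT
import Pool.Agent.H95.NCH.DEC
import Pool.Agent.H95.NCH.PAR
import Pool.Agent.H95.NCH.RRF
import Pool.Agent.H96.NCH.AVC
import Pool.Agent.H97.NCH.ZL
import Pool.Agent.H97.NCH.ZR
import Pool.Agent.H98.NCH.RFU

set_option autoImplicit false

namespace Pool.Agent.H81.NCH

universe u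

theorem kpa_all : KPAStmt := Pool.Agent.H33.NCH.KPA_thm

theorem kpb_all : KPBStmt := kpb_thm

theorem kpc_all : KPCStmt := kpc_thm kpa_all

theorem lvf_all : LVFStmt := Pool.Agent.H33.NCH.LVF_thm

theorem lvg_all : LVGStmt := lvg_thm kpc_all lvf_all

theorem loc_all : LOCStmt := loc_thm

theorem lmd_all : LMDStmt := lmd_thm

theorem wts_all : WTSStmt := wts_thm lvf_all lmd_all

theorem siz_all : SIZStmt := siz_thm

theorem far_all : FARStmt := far_thm lvg_all lvf_all

theorem zl_all : ZLStmt := zl_thm far_all lvf_all lvg_all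

theorem zr_all : ZRStmt := zr_thm far_all lvf_all lvg_all

theorem gst_all : GSTStmt := gst_thm

theorem gsp_all : GSPStmt := gsp_thm gst_all zl_all zr_all

theorem pot_all : POTStmt := Pool.Agent.H57.NCH.pot_thm

theorem clp_all : CLPStmt := clp_thm kpa_all kpc_all lvf_all lmd_all

theorem cls_all : CLSStmt := Pool.Agent.H57.NCH.cls_thm clp_all

theorem lin_all : LINStmt := Pool.Agent.H25.NCH.LIN_thm kpa_all kpb_all lvf_all

theorem sld_all : SLDStmt := sld_thm

theorem cnt_all : CNTStmt := cnt_thm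

theorem ra1_all : RA1Stmt := ra1_thm lin_all sld_all cnt_all

theorem ra2_all : RA2Stmt := ra2_thm lin_all sld_all cnt_all

theorem ava_all : AVAStmt := ava_thm

theorem avt_all : AVTStmt := avt_thm

theorem avi_all : AVIStmt := avi_thm

theorem avc_all : AVCStmt := avc_thm

theorem rrf_all : RRFStmt := rrf_thm

theorem alv_all : ALVStmt := alv_thm cls_all ra1_all ra2_all ava_all avc_all rrf_all

theorem rka_all : RKAStmt.{u} := rka_thm

theorem rkm_all : RKMStmt.{u} := rkm_thm

theorem rkb_all : RKBStmt.{u} := rkb_thm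

theorem rki_all : RKIStmt.{u} := rki_thm rkb_all.{u}

theorem rko_all : RKOStmt.{u} := rko_thm rkm_all.{u} rkb_all.{u}

theorem par_all : PARStmt := par_thm wts_all

theorem rfu_all : RFUStmt.{u} := rfu_thm par_all

theorem coe_all : COEStmt.{u} := coe_thm

theorem typ_all : TYPStmt.{u} := typ_thm

theorem prd_all : PRDStmt.{u} := prd_thm typ_all.{u} rki_all.{u} rkm_all.{u}

theorem prv_all : PRVStmt.{u} := prv_thm typ_all.{u}

theorem dec_all : DECStmt.{u} := dec_thm typ_all.{u} gst_all gsp_all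

theorem one_all : ONEStmt.{u} := one_thm dec_all.{u} gst_all rka_all.{u} rko_all.{u} prd_all.{u} typ_all.{u}

theorem rci_all : RCIStmt.{u} := rci_thm pot_all loc_all ava_all avt_all avi_all rrf_all typ_all.{u}

theorem rec_all : RECStmt.{u} := rec_thm one_all.{u} rci_all.{u} alv_all prv_all.{u} siz_all ava_all prd_all.{u} rki_all.{u} typ_all.{u} rrf_all

theorem low_all : LOWStmt.{u} := low_thm rec_all.{u} coe_all.{u} rfu_all.{u} ava_all

theorem upp_all : UPPStmt.{u} := upp_thm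

theorem fin_all : FINStmt.{u} := fin_thm low_all.{u} upp_all.{u} coe_all.{u} siz_all

theorem wsb_all : WSBStmt.{u} := wsb_thm

theorem wsu_all : WSUStmt.{u} := wsu_thm

theorem upv_all : UPVStmt.{u} := upv_thm

end Pool.Agent.H81.NCH
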