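import Mathlib
import Pool.Agent.H80.Circuit

/-!
# Noncommutative circuits (NCH): definitions (MP_f18ce0_lc)

Plan: /team-store/NCH_PLAN.md.
-/

set_option autoImplicit false

namespace Pool.Agent.H81.NCH

open Pool.Agent.H80

universe u

/-! ## Noncommutative circuits -/

/-- Noncommutative polynomials over `K` in the variables `σ`: the monoid algebra of the free monoid
on `σ`, that is, the free associative algebra. -/
abbrev NCPoly (K : Type u) [Semiring K] (σ : Type) : Type u := MonoidAlgebra K (FreeMonoid σ)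

section model

variable {K : Type u} [Semiring K] {σ : Type}

/-- The noncommutative polynomial computed at a node, given the ones at its predecessors; at a
multiplication gate the first predecessor is the left factor. -/
noncomputable def ncValue {V : Type} (g : Gate K σ V) (val : V → NCPoly K σ) : NCPoly K σ :=
  match g with
  | Gate.var i => MonoidAlgebra.single (FreeMonoid.of i) 1
  | Gate.const c => MonoidAlgebra.single 1 c
  | Gate.add a b => val a + val b
  | Gate.mul a b => val a * val b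

/-- All words of `p` have length `k`. -/
def HomogOf (p : NCPoly K σ) (k : ℕ) : Prop := ∀ w : FreeMonoid σ, p.coeff w ≠ 0 → w.length = k

/-- The circuit `D`, read as a noncommutative circuit, is homogeneous (every node computes a
homogeneous polynomial) and computes `f`. -/
def HomComputes (D : Circuit K σ) (f : NCPoly K σ) : Prop :=
  ∃ val : D.V → NCPoly K σ, (∀ v, val v = ncValue (D.gate v) val) ∧
    (∀ v, ∃ k, HomogOf (val v) k) ∧ val D.out = f

/-- Compatible homogeneous values with chosen degrees. -/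
structure HVal (D : Circuit K σ) where
  /-- the values -/
  val : D.V → NCPoly K σ
  /-- they are compatible with the gates -/
  compat : ∀ v, val v = ncValue (D.gate v) val
  /-- the degrees -/
  deg : D.V → ℕ
  /-- all words have the given length -/
  hom : ∀ v, HomogOf (val v) (deg v)

end model

instance instFintypeV {K : Type u} {σ : Type} (D : Circuit K σ) : Fintype D.V := D.fin

/-! ## Positions -/

/-- `N = 2^(h+3)` -/
def NN (h : ℕ) : ℕ := 2 ^ (h + 3)

/-- `H` for nodes of height `k` -/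
def HH (m k : ℕ) : ℕ := 4 ^ k * (4 * m)

/-- number of letters of a wall of a node of height `k` -/
def Wd (h m k : ℕ) : ℕ := 2 * (NN h * HH m k) + 1

/-- length of the interval of a non-root node of height `k` -/
def Ln (h m : ℕ) : ℕ → ℕ
  | 0 => 2 * Wd h m 0
  | k + 1 => 2 * Wd h m (k + 1) + 2 * Ln h m k

/-- length of the core of a node of height `k` -/
def Cr (h m : ℕ) : ℕ → ℕ
  | 0 => 0
  | k + 1 => 2 * Ln h m k

/-- start of the core of the node `(e, i)` (depth `e`) -/
def cs (h m : ℕ) : ℕ → ℕ → ℕ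
  | 0, _ => 0
  | e + 1, i => cs h m e (i / 2) + (i % 2) * Ln h m (h - (e + 1)) + Wd h m (h - (e + 1))

/-- end of the core -/
def ce (h m e i : ℕ) : ℕ := cs h m e i + Cr h m (h - e)

/-- start of the interval of a non-root node -/
def st (h m e i : ℕ) : ℕ := cs h m e i - Wd h m (h - e)

/-- end of the interval of a non-root node -/
def en (h m e i : ℕ) : ℕ := ce h m e i + Wd h m (h - e)

/-- middle of the core of a node with children -/
def md (h m e i : ℕ) : ℕ := cs h m e i + Ln h m (h - (e + 1))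

/-- total length of the words -/
def dd (h m : ℕ) : ℕ := Cr h m h

/-- `N * H` for a node of depth `e`: the index of the slot -/
def NH (h m e : ℕ) : ℕ := NN h * HH m (h - e)

/-- `(e', i')` lies in the subtree of `(e, i)` -/
def Inside (e i e' i' : ℕ) : Prop := e ≤ e' ∧ i' / 2 ^ (e' - e) = i

/-! ## Levels -/

/-- The letter with index `s` of the walls of `(e, i)` is kept, if `r` is the random number of
the node. -/
def Kept (h m e i r s : ℕ) : Prop :=
  (s < NH h m e ∧ (if s / NN h < r then 2 ^ e + i + 2 ^ (h + 1) else 2 ^ e + i) ≤ s % NN h) ∨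
  (NH h m e < s ∧ 2 ^ e + i ≤ (s - NH h m e - 1) % NN h)

instance (h m e i r s : ℕ) : Decidable (Kept h m e i r s) := by
  unfold Kept
  infer_instance

/-- number of kept letters with index `< t` -/
def kap (h m e i r t : ℕ) : ℕ := ((Finset.range t).filter (Kept h m e i r)).card

/-- the sign of a non-root node -/
def sgn (e i : ℕ) : ℤ := if i % 2 = 1 then (-1) ^ (e + 1) else (-1) ^ e

/-- the index of the boundary `t` with respect to the node `(e, i)` -/
def idx (h m e i t : ℕ) : ℕ := min (min (t - st h m e i) (en h m e i - t)) (Wd h m (h - e))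

/-- the level of the boundary `t` -/
def phi (h m : ℕ) (r : ℕ → ℕ → ℕ) (t : ℕ) : ℤ :=
  ∑ e ∈ Finset.range h, ∑ i ∈ Finset.range (2 ^ (e + 1)),
    sgn (e + 1) i * (kap h m (e + 1) i (r (e + 1) i) (idx h m (e + 1) i t) : ℤ)

/-- level at the ends of the interval of `(e, i)`: sum over the strict ancestors -/
def bas (h m : ℕ) (r : ℕ → ℕ → ℕ) (e i : ℕ) : ℤ :=
  ∑ D ∈ Finset.Ico 1 e, sgn D (i / 2 ^ (e - D)) *
    (kap h m D (i / 2 ^ (e - D)) (r D (i / 2 ^ (e - D))) (Wd h m (h - D)) : ℤ)

/-- bounds for the random numbers -/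
def RB (m : ℕ) (r : ℕ → ℕ → ℕ) : Prop := ∀ e i, 1 ≤ r e i ∧ r e i ≤ m

/-- `t` is in the left (`true`) or right (`false`) closed wall of `(e, i)` -/
def InWall (h m : ℕ) (side : Bool) (e i t : ℕ) : Prop :=
  if side then st h m e i ≤ t ∧ t ≤ cs h m e i else ce h m e i ≤ t ∧ t ≤ en h m e i

open Classical in
/-- signed slope (times `N`) of the level in a wall, in the post or pre part -/
noncomputable def slp (h : ℕ) (side : Bool) (e i : ℕ) (post : Prop) : ℤ :=
  (if side then 1 else -1) * sgn e i *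
    ((NN h : ℤ) - 2 ^ e - i - (if post then 0 else 2 ^ (h + 1)))

/-- `t` lies between the two label slots of some junction -/
def LamP (h m t : ℕ) : Prop :=
  ∃ e i : ℕ, e < h ∧ i < 2 ^ e ∧ md h m e i ≤ t + NH h m (e + 1) ∧ t ≤ md h m e i + NH h m (e + 1)

open Classical in
/-- the label level -/
noncomputable def lam (h m t : ℕ) : ℤ := if LamP h m t then 1 else 0

/-- the full level -/
noncomputable def psi (h m : ℕ) (r : ℕ → ℕ → ℕ) (t : ℕ) : ℤ := 2 * phi h m r t + lam h m t

/-- the weight of the letter at position `t` -/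
noncomputable def wt (h m : ℕ) (r : ℕ → ℕ → ℕ) (t : ℕ) : ℤ := psi h m r (t + 1) - psi h m r t

/-- total weight of the letters of `[a, b)` -/
noncomputable def absw (h m : ℕ) (r : ℕ → ℕ → ℕ) (a b : ℕ) : ℕ :=
  ∑ t ∈ Finset.Ico a b, (wt h m r t).natAbs

/-- killing threshold -/
def KK (h : ℕ) : ℕ := h + 10

/-- a cut `a, c, b` is alive -/
def Alive (h m : ℕ) (r : ℕ → ℕ → ℕ) (a c b : ℕ) : Prop :=
  |psi h m r a - psi h m r c| < (KK h : ℤ) ∧ |psi h m r c - psi h m r b| < (KK h : ℤ)

/-- the boundary `t` is in the post part of the node `(e, i)` -/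
def Post (h m : ℕ) (r : ℕ → ℕ → ℕ) (e i t : ℕ) : Prop := NN h * r e i ≤ idx h m e i t

/-- `Post` is not constant on `a, c, b` -/
def NonConst (h m : ℕ) (r : ℕ → ℕ → ℕ) (e i a c b : ℕ) : Prop :=
  ¬ ((Post h m r e i a ↔ Post h m r e i c) ∧ (Post h m r e i c ↔ Post h m r e i b))

/-- the label gives a gain for both sides of the cut -/
def Gain (h m a c b : ℕ) : Prop := lam h m a ≠ lam h m c ∧ lam h m c ≠ lam h m b

/-! ## Big cores, stops, the potential -/

/-- a big core of `(e, i)` (nine levels below) lies in `[a, b)` -/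
def BigIn (h m e i a b : ℕ) : Prop :=
  ∃ x < 512, a ≤ cs h m (e + 9) (512 * i + x) ∧ ce h m (e + 9) (512 * i + x) ≤ b

/-- the cut is a stop for `(e, i)` -/
def Stop (h m e i a c b : ℕ) : Prop := BigIn h m e i a c ∧ BigIn h m e i c b

/-- number of strict non-root ancestors of `(e, i)` whose core starts right of `a` -/
def An (h m e i a : ℕ) : ℕ :=
  ((Finset.range e).filter (fun D => 1 ≤ D ∧ a < cs h m D (i / 2 ^ (e - D)))).card

/-- number of strict non-root ancestors of `(e, i)` whose core ends left of `b` -/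
def Bn (h m e i b : ℕ) : ℕ :=
  ((Finset.range e).filter (fun D => 1 ≤ D ∧ ce h m D (i / 2 ^ (e - D)) < b)).card

/-- the potential -/
def Pot (h m e i a b : ℕ) : ℤ := (h : ℤ) - e - An h m e i a - Bn h m e i b

/-- history of `p` cuts from the left -/
def LHist (h m : ℕ) (r : ℕ → ℕ → ℕ) (e i p b b0 : ℕ) : Prop :=
  ∃ c b' : ℕ → ℕ,
    (∀ x < p, cs h m (e + 9) (512 * i + x) < c x ∧ c x < ce h m (e + 9) (512 * i + x) ∧
      |phi h m r (c x) - phi h m r (b' x)| ≤ (KK h : ℤ) ∧ b ≤ b' x ∧ b' x ≤ b0) ∧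
    ∀ x y, x ≤ y → y < p → b' y ≤ b' x

/-- history of `q` cuts from the right -/
def RHist (h m : ℕ) (r : ℕ → ℕ → ℕ) (e i q a a0 : ℕ) : Prop :=
  ∃ c a' : ℕ → ℕ,
    (∀ x < q, cs h m (e + 9) (512 * i + (511 - x)) < c x ∧
      c x < ce h m (e + 9) (512 * i + (511 - x)) ∧
      |phi h m r (a' x) - phi h m r (c x)| ≤ (KK h : ℤ) ∧ a0 ≤ a' x ∧ a' x ≤ a) ∧
    ∀ x y, x ≤ y → y < q → a' x ≤ a' y

/-- the state of the walk: at least two big cores of `(e, i)` are in `[a, b)` -/
def Good (h m : ℕ) (r : ℕ → ℕ → ℕ) (g : ℤ) (e i a b : ℕ) : Prop :=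
  e + 10 ≤ h ∧ i < 2 ^ e ∧ b ≤ dd h m ∧ ∃ a0 b0 p q : ℕ, a0 ≤ a ∧ b ≤ b0 ∧ b0 ≤ dd h m ∧
    g ≤ Pot h m e i a0 b0 ∧ p + q ≤ 510 ∧ a ≤ cs h m (e + 9) (512 * i + p) ∧
    ce h m (e + 9) (512 * i + (511 - q)) ≤ b ∧ LHist h m r e i p b b0 ∧ RHist h m r e i q a a0

/-! ## Random numbers -/

/-- configurations of random numbers -/
abbrev Om (h m : ℕ) : Type := Fin (h + 1) × Fin (2 ^ h) → Fin m

/-- the random number of a node, in `{1, ..., m}` -/
def rr {h m : ℕ} (ω : Om h m) (e i : ℕ) : ℕ :=
  if hh : e < h + 1 ∧ i < 2 ^ h then (ω (⟨e, hh.1⟩, ⟨i, hh.2⟩) : ℕ) + 1 else 1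

open Classical in
/-- take the coordinates in `S` from `η`, the other ones from `ω` -/
noncomputable def mixS {h m : ℕ} (S : ℕ → ℕ → Prop) (η ω : Om h m) : Om h m :=
  fun p => if S p.1 p.2 then η p else ω p

/-- average over the coordinates in `S` -/
noncomputable def avg {h m : ℕ} (S : ℕ → ℕ → Prop) (G : Om h m → ℝ) (ω : Om h m) : ℝ :=
  (∑ η : Om h m, G (mixS S η ω)) / (Fintype.card (Om h m) : ℝ)

/-- change the random number of one node -/
def upd (r : ℕ → ℕ → ℕ) (u x ρ : ℕ) : ℕ → ℕ → ℕ :=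
  fun e i => if e = u ∧ i = x then ρ else r e i

/-! ## Words and matrices; the alphabet has `n = m ^ 4` letters -/

/-- extend a finite word by zeros -/
def ext {d n : ℕ} [NeZero n] (y : Fin d → Fin n) : ℕ → Fin n :=
  fun t => if hh : t < d then y ⟨t, hh⟩ else 0

/-- letters for label slots: less than `m ^ 2` -/
def trunc (m : ℕ) {n : ℕ} [NeZero n] (x : Fin n) : Fin n := if (x : ℕ) < m ^ 2 then x else 0

/-- the word with the letters of `y` at the positions of positive weight, those of `z` at the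
positions of negative weight and `0` at the others -/
noncomputable def mixW (h m : ℕ) (r : ℕ → ℕ → ℕ) {n : ℕ} [NeZero n] (y z : ℕ → Fin n) : ℕ → Fin n :=
  fun t => if 2 ≤ wt h m r t then y t else if wt h m r t = 1 then trunc m (y t)
    else if wt h m r t = 0 then 0 else if wt h m r t = -1 then trunc m (z t) else z t

/-- rank of the partition matrix of `F` -/
noncomputable def rk {K : Type u} [Field K] (h m : ℕ) (r : ℕ → ℕ → ℕ) {n : ℕ} [NeZero n]
    (F : (ℕ → Fin n) → K) : ℕ :=
  (Matrix.of fun (y z : Fin (dd h m) → Fin n) => F (mixW h m r (ext y) (ext z))).rank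

/-- relative rank of `F` with respect to `[a, b)` -/
noncomputable def rho {K : Type u} [Field K] (h m : ℕ) (r : ℕ → ℕ → ℕ) {n : ℕ} [NeZero n]
    (a b : ℕ) (F : (ℕ → Fin n) → K) : ℝ :=
  (rk h m r F : ℝ) / (m : ℝ) ^ absw h m r a b

/-- `F` depends only on the letters at the positions in `S` -/
def DepOn {K : Type u} {n : ℕ} (S : Set ℕ) (F : (ℕ → Fin n) → K) : Prop :=
  ∀ w w' : ℕ → Fin n, (∀ t ∈ S, w t = w' t) → F w = F w'

/-- the word read in `w` at the positions `a, ..., a + k - 1` -/
def seg {n : ℕ} (w : ℕ → Fin n) (a k : ℕ) : FreeMonoid (Fin n) :=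
  FreeMonoid.ofList ((List.range k).map (fun t => w (a + t)))

/-! ## The polynomial -/

/-- `T P = ∑ x_a P x_a` -/
noncomputable def TT {K : Type u} [Semiring K] {n : ℕ} (P : NCPoly K (Fin n)) : NCPoly K (Fin n) :=
  ∑ a : Fin n, MonoidAlgebra.single (FreeMonoid.of a) 1 * P * MonoidAlgebra.single (FreeMonoid.of a) 1

/-- wrap walls around `P`, with letters `x`, `y` in the two slots -/
noncomputable def Wrap {K : Type u} [Semiring K] {n : ℕ} (H : ℕ) (x y : Fin n)
    (P : NCPoly K (Fin n)) : NCPoly K (Fin n) :=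
  TT^[H] (MonoidAlgebra.single (FreeMonoid.of x) 1 * TT^[H] P *
    MonoidAlgebra.single (FreeMonoid.of y) 1)

/-- the polynomial of the core of a node of height `k` -/
noncomputable def Sp (K : Type u) [Semiring K] (h m : ℕ) {n : ℕ} [NeZero n] : ℕ → NCPoly K (Fin n)
  | 0 => 1
  | k + 1 => ∑ j ∈ (Finset.univ : Finset (Fin n)).filter (fun j : Fin n => (j : ℕ) < m ^ 2),
      Wrap (NN h * HH m k) 0 j (Sp K h m k) * Wrap (NN h * HH m k) j 0 (Sp K h m k)

/-- The words of `Sp K h m h`. -/
def Valid (h m : ℕ) {n : ℕ} [NeZero n] (w : ℕ → Fin n) : Prop :=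
  (∀ e i, 1 ≤ e → e ≤ h → i < 2 ^ e → ∀ s < Wd h m (h - e), s ≠ NH h m e →
    w (st h m e i + s) = w (en h m e i - 1 - s)) ∧
  (∀ e i, e < h → i < 2 ^ e →
    w (en h m (e + 1) (2 * i) - 1 - NH h m (e + 1)) = w (st h m (e + 1) (2 * i + 1) + NH h m (e + 1)) ∧
    (w (st h m (e + 1) (2 * i + 1) + NH h m (e + 1)) : ℕ) < m ^ 2 ∧
    w (st h m (e + 1) (2 * i) + NH h m (e + 1)) = 0 ∧
    w (en h m (e + 1) (2 * i + 1) - 1 - NH h m (e + 1)) = 0)

/-! ## Typed nodes -/

section typed

variable {K : Type u} [Field K] {n : ℕ} {D : Circuit K (Fin n)}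

/-- the typed node `(v, a)`: coefficients of the words read at `[a, a + deg v)` -/
noncomputable def FF (X : HVal D) (v : D.V) (a : ℕ) : (ℕ → Fin n) → K :=
  fun w => (X.val v).coeff (seg w a (X.deg v))

/-- a path through nodes with nonzero values (except perhaps its upper end) -/
def NPath (X : HVal D) : D.V → D.V → Prop :=
  Relation.ReflTransGen (fun s t => (∃ j : Fin 2, (D.gate t).tail j = some s) ∧ X.val s ≠ 0)

open Classical in
/-- the nodes below `v` -/
noncomputable def Sb (X : HVal D) (v : D.V) : Finset D.V :=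
  Finset.univ.filter (fun u => NPath X u v)

/-- left factor -/
def lft (D : Circuit K (Fin n)) (x : D.V) : D.V :=
  match D.gate x with
  | Gate.mul a _ => a
  | _ => x

/-- right factor -/
def rgt (D : Circuit K (Fin n)) (x : D.V) : D.V :=
  match D.gate x with
  | Gate.mul _ b => b
  | _ => x

/-- `x` is a multiplication gate with nonzero value -/
def MulN (X : HVal D) (x : D.V) : Prop := X.val x ≠ 0 ∧ ∃ a b : D.V, D.gate x = Gate.mul a b

/-- the nodes of the tree in the subtree of `(e, i)` -/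
noncomputable def nds (h e i : ℕ) : Finset (ℕ × ℕ) := by
  classical
  exact ((Finset.range (h + 1)) ×ˢ (Finset.range (2 ^ h))).filter
    (fun p => p.2 < 2 ^ p.1 ∧ Inside e i p.1 p.2)

end typed

end Pool.Agent.H81.NCH
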