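import Pool.Agent.H81.NCH.Defs

/-!
# NCH: statements of the modules (MP_f18ce0_lc)

Plan: /team-store/NCH_PLAN.md. Geometry library: Pool/Agent/H81/NCH/Base.lean.
-/

set_option autoImplicit false

namespace Pool.Agent.H81.NCH

open Pool.Agent.H80

universe u

/-! ## kap -/

/-- KPA: monotone, 1-Lipschitz, dependence on `r` -/
def KPAStmt : Prop := ∀ h m e i : ℕ, e ≤ h → i < 2 ^ e →
  (∀ r t t' : ℕ, t ≤ t' → kap h m e i r t ≤ kap h m e i r t' ∧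
    kap h m e i r t' ≤ kap h m e i r t + (t' - t)) ∧
  (∀ r r' t : ℕ, t ≤ NN h * r → t ≤ NN h * r' → kap h m e i r t = kap h m e i r' t) ∧
  (∀ r t : ℕ, NN h * r ≤ t → r ≤ m → kap h m e i r t + 2 ^ (h + 1) * r = kap h m e i 0 t)

/-- KPB: linear approximations -/
def KPBStmt : Prop := ∀ h m e i : ℕ, e ≤ h → i < 2 ^ e →
  (∀ r t : ℕ, t ≤ NN h * r → r ≤ m →
    |(NN h : ℤ) * kap h m e i r t - ((NN h : ℤ) - 2 ^ e - i - 2 ^ (h + 1)) * t| ≤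
      (NN h : ℤ) ^ 2) ∧
  (∀ t : ℕ, |(NN h : ℤ) * kap h m e i 0 t - ((NN h : ℤ) - 2 ^ e - i) * t| ≤
      2 * (NN h : ℤ) ^ 2)

/-- KPC: totals -/
def KPCStmt : Prop := ∀ h m e i r : ℕ, e ≤ h → i < 2 ^ e → r ≤ m →
  3 * NH h m e ≤ 2 * kap h m e i r (Wd h m (h - e)) + 2 * (2 ^ (h + 1) * r) ∧
  ∀ t ≤ NH h m e, 4 * kap h m e i r t + 3 * NH h m e ≤ 4 * kap h m e i r (Wd h m (h - e))

/-! ## Levels -/

/-- LVF: the level in a wall -/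
def LVFStmt : Prop := ∀ (h m : ℕ) (r : ℕ → ℕ → ℕ) (e i t : ℕ), 1 ≤ e → e ≤ h → i < 2 ^ e →
  (∃ side, InWall h m side e i t) →
  phi h m r t = bas h m r e i + sgn e i * (kap h m e i (r e i) (idx h m e i t) : ℤ)

/-- LVG: signs of the levels in the interval and in the core of a node -/
def LVGStmt : Prop := ∀ (h m : ℕ) (r : ℕ → ℕ → ℕ) (e i t : ℕ), 1 ≤ m → RB m r → 1 ≤ e → e ≤ h →
  i < 2 ^ e → st h m e i ≤ t → t ≤ en h m e i →
  0 ≤ sgn e i * (phi h m r t - bas h m r e i) ∧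
  (cs h m e i ≤ t → t ≤ ce h m e i →
    3 * (KK h : ℤ) ≤ sgn e i * (phi h m r t - bas h m r e i))

/-- LOC: the level outside of the interval of `(e, i)` does not depend on the numbers inside -/
def LOCStmt : Prop := ∀ (h m : ℕ) (r r' : ℕ → ℕ → ℕ) (e i t : ℕ), 1 ≤ e → e ≤ h → i < 2 ^ e →
  (t ≤ st h m e i ∨ en h m e i ≤ t) → (∀ e' i', ¬ Inside e i e' i' → r e' i' = r' e' i') →
  phi h m r t = phi h m r' t

/-- LMD: the label level in the walls -/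
def LMDStmt : Prop := ∀ h m e i t : ℕ, 1 ≤ m → 1 ≤ e → e ≤ h → i < 2 ^ e →
  (st h m e i ≤ t → t ≤ cs h m e i → (LamP h m t ↔ i % 2 = 1 ∧ t ≤ st h m e i + NH h m e)) ∧
  (ce h m e i ≤ t → t ≤ en h m e i → (LamP h m t ↔ i % 2 = 0 ∧ en h m e i ≤ t + NH h m e))

/-- WTS: the weights of the letters -/
def WTSStmt : Prop := ∀ (h m : ℕ) (r : ℕ → ℕ → ℕ) (e i : ℕ), 1 ≤ m → 1 ≤ e → e ≤ h → i < 2 ^ e →
  (∀ s < Wd h m (h - e), s ≠ NH h m e →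
    wt h m r (st h m e i + s) = (if Kept h m e i (r e i) s then 2 * sgn e i else 0) ∧
    wt h m r (en h m e i - 1 - s) = (if Kept h m e i (r e i) s then -(2 * sgn e i) else 0)) ∧
  wt h m r (st h m e i + NH h m e) = (if i % 2 = 1 then -1 else 0) ∧
  wt h m r (en h m e i - 1 - NH h m e) = (if i % 2 = 1 then 0 else 1)

/-- SIZ: sizes -/
def SIZStmt : Prop := ∀ h m : ℕ, 1 ≤ h → 1 ≤ m → dd h m ≤ 4 ^ h * (32 * (NN h * m)) ∧
  (∀ e i : ℕ, e < h → cs h m e i + 32 * (NN h * m) ≤ ce h m e i) ∧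
  (∀ e i : ℕ, i < 2 ^ e → (nds h e i).card ≤ 2 ^ (2 * h))

/-! ## The walk -/

/-- FAR: a boundary at (nearly) the level of a core point, outside of the node -/
def FARStmt : Prop := ∀ (h m : ℕ) (r : ℕ → ℕ → ℕ) (E x c b : ℕ), 1 ≤ m → RB m r → 1 ≤ E → E ≤ h →
  x < 2 ^ E → cs h m E x ≤ c → c ≤ ce h m E x → b ≤ dd h m →
  |phi h m r c - phi h m r b| ≤ (KK h : ℤ) →
  (en h m E x ≤ b → ∃ D, 1 ≤ D ∧ D < E ∧ ce h m D (x / 2 ^ (E - D)) < b ∧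
    b ≤ en h m D (x / 2 ^ (E - D))) ∧
  (b ≤ st h m E x → ∃ D, 1 ≤ D ∧ D < E ∧ st h m D (x / 2 ^ (E - D)) ≤ b ∧
    b < cs h m D (x / 2 ^ (E - D)))

/-- ZL: zigzag for the cuts from the left -/
def ZLStmt : Prop := ∀ (h m : ℕ) (r : ℕ → ℕ → ℕ) (e i p b b0 : ℕ), 1 ≤ m → RB m r → e + 10 ≤ h →
  i < 2 ^ e → p ≤ 511 → ce h m (e + 9) (512 * i + p) ≤ b → b ≤ b0 → b0 ≤ dd h m →
  LHist h m r e i p b b0 → (p + 1) / 4 + Bn h m e i b ≤ Bn h m e i b0 + 8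

/-- ZR: zigzag for the cuts from the right -/
def ZRStmt : Prop := ∀ (h m : ℕ) (r : ℕ → ℕ → ℕ) (e i q a a0 : ℕ), 1 ≤ m → RB m r → e + 10 ≤ h →
  i < 2 ^ e → q ≤ 511 → a ≤ cs h m (e + 9) (512 * i + (511 - q)) → a0 ≤ a → a ≤ dd h m →
  RHist h m r e i q a a0 → (q + 1) / 4 + An h m e i a ≤ An h m e i a0 + 8

/-- GST: start, length and potential of good states -/
def GSTStmt : Prop := ∀ (h m : ℕ) (r : ℕ → ℕ → ℕ) (g : ℤ) (e i a b : ℕ), 1 ≤ m →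
  (e + 10 ≤ h → i < 2 ^ e → a ≤ cs h m e i → ce h m e i ≤ b → b ≤ dd h m →
    g ≤ Pot h m e i a b → Good h m r g e i a b) ∧
  (Good h m r g e i a b → a + 2 ≤ b ∧ g ≤ Pot h m e i a b)

/-- GSP: a step of the walk -/
def GSPStmt : Prop := ∀ (h m : ℕ) (r : ℕ → ℕ → ℕ) (g : ℤ) (e i a c b : ℕ), 1 ≤ m → RB m r →
  30 ≤ g → Good h m r g e i a b → a ≤ c → c ≤ b → Alive h m r a c b → ¬ Stop h m e i a c b →
  ∃ e' i', Inside e i e' i' ∧ (Good h m r g e' i' a c ∨ Good h m r g e' i' c b)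

/-- POT: the potential on the two sides of a stop -/
def POTStmt : Prop := ∀ h m e i a c b : ℕ, 1 ≤ m → e + 10 ≤ h → i < 2 ^ e → b ≤ dd h m →
  Stop h m e i a c b →
  (∃ y, y < 2 ^ (e + 10) ∧ Inside e i (e + 10) y ∧ a ≤ cs h m (e + 10) y ∧
    ce h m (e + 10) y ≤ c ∧ a ≤ st h m (e + 10) y ∧ en h m (e + 10) y ≤ c ∧
    Pot h m e i a b - 30 ≤ Pot h m (e + 10) y a c) ∧
  (∃ y, y < 2 ^ (e + 10) ∧ Inside e i (e + 10) y ∧ c ≤ cs h m (e + 10) y ∧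
    ce h m (e + 10) y ≤ b ∧ c ≤ st h m (e + 10) y ∧ en h m (e + 10) y ≤ b ∧
    Pot h m e i a b - 30 ≤ Pot h m (e + 10) y c b)

/-! ## Stops -/

/-- CLP: a living cut with cores on both sides of a junction -/
def CLPStmt : Prop := ∀ (h m : ℕ) (r : ℕ → ℕ → ℕ) (e i E x E' x' a c b : ℕ), 1 ≤ m → RB m r →
  i < 2 ^ e → E < h → E' < h → Inside (e + 1) (2 * i) E x → Inside (e + 1) (2 * i + 1) E' x' →
  a ≤ cs h m E x → ce h m E x ≤ c → c ≤ cs h m E' x' → ce h m E' x' ≤ b → b ≤ dd h m →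
  Alive h m r a c b →
  Gain h m a c b ∨ (1 ≤ e ∧ NonConst h m r e i a c b) ∨ NonConst h m r (e + 1) (2 * i) a c b ∨
    NonConst h m r (e + 1) (2 * i + 1) a c b

/-- CLS: living stops -/
def CLSStmt : Prop := ∀ (h m : ℕ) (r : ℕ → ℕ → ℕ) (e i a c b : ℕ), 1 ≤ m → RB m r → e + 10 ≤ h →
  i < 2 ^ e → b ≤ dd h m → Alive h m r a c b → Stop h m e i a c b →
  Gain h m a c b ∨ ∃ e' i', Inside e i e' i' ∧ 1 ≤ e' ∧ e' ≤ h ∧ i' < 2 ^ e' ∧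
    NonConst h m r e' i' a c b

open Classical in
/-- LIN: change of the level within a cell, if `t` and the number of `(u, x)` change -/
def LINStmt : Prop := ∀ (h m : ℕ) (r : ℕ → ℕ → ℕ) (u x ρ ρ' e i : ℕ) (side : Bool) (t t' : ℕ),
  1 ≤ m → RB m (upd r u x ρ) → RB m (upd r u x ρ') → 1 ≤ e → e ≤ h → i < 2 ^ e → 1 ≤ u → u ≤ h →
  x < 2 ^ u → InWall h m side e i t → InWall h m side e i t' →
  (Post h m (upd r u x ρ) e i t ↔ Post h m (upd r u x ρ') e i t') →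
  (Post h m (upd r u x ρ) u x t ↔ Post h m (upd r u x ρ') u x t') ∧
  |(NN h : ℤ) * (phi h m (upd r u x ρ') t' - phi h m (upd r u x ρ) t) -
      slp h side e i (Post h m (upd r u x ρ) e i t) * ((t' : ℤ) - t) +
      sgn u x * 2 ^ (h + 1) * (NN h : ℤ) * (if Post h m (upd r u x ρ) u x t then 1 else 0) *
        ((ρ' : ℤ) - ρ)| ≤ 4 * (NN h : ℤ) ^ 2

/-- SLD: slopes of different walls are different -/
def SLDStmt : Prop := ∀ (h : ℕ) (side side' : Bool) (e i e' i' : ℕ) (P P' : Prop), e ≤ h → i < 2 ^ e →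
  e' ≤ h → i' < 2 ^ e' → (side, e, i) ≠ (side', e', i') → slp h side e i P ≠ slp h side' e' i' P'

/-- CNT: counting points -/
def CNTStmt : Prop :=
  (∀ (S : Finset ℤ) (σ : ℤ) (K1 : ℕ), σ ≠ 0 → (∀ x ∈ S, ∀ y ∈ S, |σ * (x - y)| ≤ K1) →
    S.card ≤ 2 * K1 + 1) ∧
  (∀ (S : Finset (ℤ × ℤ)) (α β γ δ : ℤ) (K1 : ℕ), α * δ - β * γ ≠ 0 →
    (∀ p ∈ S, ∀ q ∈ S, |α * (p.1 - q.1) + β * (p.2 - q.2)| ≤ K1 ∧
      |γ * (p.1 - q.1) + δ * (p.2 - q.2)| ≤ K1) → S.card ≤ (2 * K1 + 1) ^ 2)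

open Classical in
/-- RA1: number of living shifts of a stop gate -/
def RA1Stmt : Prop := ∀ (h m : ℕ) (r : ℕ → ℕ → ℕ) (k1 k2 e i : ℕ), 1 ≤ m → RB m r → e + 10 ≤ h →
  i < 2 ^ e →
  ((Finset.range (dd h m + 1)).filter (fun a => a + k1 + k2 ≤ dd h m ∧
    Alive h m r a (a + k1) (a + k1 + k2) ∧ Stop h m e i a (a + k1) (a + k1 + k2))).card ≤
    2 ^ (2 * h + 6) * 2 ^ (2 * h + 12)

open Classical in
/-- RA2: number of pairs (shift, number of `(u, x)`) with a living stop gate and `Post` of `(u, x)`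
not constant -/
def RA2Stmt : Prop := ∀ (h m : ℕ) (r : ℕ → ℕ → ℕ) (u x k1 k2 e i : ℕ), 1 ≤ m → RB m r → e + 10 ≤ h →
  i < 2 ^ e → 1 ≤ u → u ≤ h → x < 2 ^ u →
  ((Finset.range (dd h m + 1) ×ˢ Finset.range m).filter (fun p => p.1 + k1 + k2 ≤ dd h m ∧
    Alive h m (upd r u x (p.2 + 1)) p.1 (p.1 + k1) (p.1 + k1 + k2) ∧
    Stop h m e i p.1 (p.1 + k1) (p.1 + k1 + k2) ∧
    NonConst h m (upd r u x (p.2 + 1)) u x p.1 (p.1 + k1) (p.1 + k1 + k2))).card ≤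
    2 ^ (3 * h + 9) * (2 ^ (2 * h + 12)) ^ 2

/-! ## Averages -/

/-- AVA: linearity and monotonicity -/
def AVAStmt : Prop := ∀ (h m : ℕ) (S : ℕ → ℕ → Prop), 1 ≤ m →
  (∀ (F G : Om h m → ℝ) (ω : Om h m), (∀ ω', F ω' ≤ G ω') → avg S F ω ≤ avg S G ω) ∧
  (∀ (c : ℝ) (ω : Om h m), avg S (fun _ => c) ω = c) ∧
  (∀ (c : ℝ) (F : Om h m → ℝ) (ω : Om h m), avg S (fun ω' => c * F ω') ω = c * avg S F ω) ∧
  (∀ (ι : Type) (s : Finset ι) (F : ι → Om h m → ℝ) (ω : Om h m),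
    avg S (fun ω' => ∑ j ∈ s, F j ω') ω = ∑ j ∈ s, avg S (F j) ω) ∧
  (∀ (F G : Om h m → ℝ) (ω : Om h m), avg S (fun ω' => F ω' + G ω') ω = avg S F ω + avg S G ω) ∧
  (∀ (F : Om h m → ℝ) (ω : Om h m), (∀ ω', 0 ≤ F ω') → 0 ≤ avg S F ω)

/-- AVT: tower property -/
def AVTStmt : Prop := ∀ (h m : ℕ) (S S' : ℕ → ℕ → Prop) (F : Om h m → ℝ) (ω : Om h m), 1 ≤ m →
  (∀ e i, S' e i → S e i) → avg S (avg S' F) ω = avg S F ω

/-- AVI: a factor which does not depend on the averaged coordinates -/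
def AVIStmt : Prop := ∀ (h m : ℕ) (S : ℕ → ℕ → Prop) (F G : Om h m → ℝ) (ω : Om h m), 1 ≤ m →
  (∀ η : Om h m, G (mixS S η ω) = G ω) → avg S (fun ω' => G ω' * F ω') ω = G ω * avg S F ω

/-- AVC: averaging over one coordinate first; here the function depends only on the numbers -/
def AVCStmt : Prop := ∀ (h m : ℕ) (S : ℕ → ℕ → Prop) (G : (ℕ → ℕ → ℕ) → ℝ) (u x : ℕ) (ω : Om h m),
  1 ≤ m → u ≤ h → x < 2 ^ h → S u x →
  avg S (fun ω' => G (rr ω')) ω =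
    avg S (fun ω' => (∑ ρ ∈ Finset.range m, G (upd (rr ω') u x (ρ + 1))) / (m : ℝ)) ω

/-- RRF: the numbers of a configuration -/
def RRFStmt : Prop := ∀ (h m : ℕ) (ω : Om h m), 1 ≤ m → RB m (rr ω) ∧
  ∀ (S : ℕ → ℕ → Prop) (η : Om h m) (e i : ℕ), ¬ S e i → rr (mixS S η ω) e i = rr ω e i

open Classical in
/-- the factor gained or lost at a stop gate -/
noncomputable def gfac (h m : ℕ) (r : ℕ → ℕ → ℕ) (e i a c b : ℕ) : ℝ :=
  if b ≤ dd h m ∧ Alive h m r a c b ∧ Stop h m e i a c b then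
    (if Gain h m a c b then 1 / (m : ℝ) else 1) else 0

/-- ALV: expected number of living stops -/
def ALVStmt : Prop := ∀ (h m : ℕ) (e i e' i' k1 k2 : ℕ) (ω : Om h m), 1 ≤ m → i < 2 ^ e →
  Inside e i e' i' → e' + 10 ≤ h →
  ∑ a ∈ Finset.range (dd h m + 1),
    avg (Inside e i) (fun ω' => gfac h m (rr ω') e' i' a (a + k1) (a + k1 + k2)) ω ≤
    2 ^ (8 * h + 35) / (m : ℝ)

/-! ## Ranks -/

/-- RKA: sums -/
def RKAStmt : Prop := ∀ (K : Type u) [Field K] (h m n : ℕ) [NeZero n] (r : ℕ → ℕ → ℕ) (ι : Type)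
  (s : Finset ι) (F : ι → (ℕ → Fin n) → K),
  rk h m r (fun w => ∑ j ∈ s, F j w) ≤ ∑ j ∈ s, rk h m r (F j)

/-- RKM: products -/
def RKMStmt : Prop := ∀ (K : Type u) [Field K] (h m n : ℕ) [NeZero n] (r : ℕ → ℕ → ℕ)
  (F G : (ℕ → Fin n) → K), rk h m r (fun w => F w * G w) ≤ rk h m r F * rk h m r G

/-- RKB: dimension bound -/
def RKBStmt : Prop := ∀ (K : Type u) [Field K] (h m n : ℕ) [NeZero n] (r : ℕ → ℕ → ℕ)
  (F : (ℕ → Fin n) → K) (S : Finset ℕ), 1 ≤ m → n = m ^ 4 → (∀ t ∈ S, t < dd h m) →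
  DepOn (S : Set ℕ) F →
  rk h m r F ≤ m ^ (2 * ∑ t ∈ S with 0 < wt h m r t, (wt h m r t).natAbs) ∧
  rk h m r F ≤ m ^ (2 * ∑ t ∈ S with wt h m r t < 0, (wt h m r t).natAbs)

/-- RKI: consequences for the relative rank -/
def RKIStmt : Prop := ∀ (K : Type u) [Field K] (h m n : ℕ) [NeZero n] (r : ℕ → ℕ → ℕ)
  (F : (ℕ → Fin n) → K) (a b : ℕ), 1 ≤ m → n = m ^ 4 → a ≤ b → b ≤ dd h m →
  DepOn (Set.Ico a b) F →
  rho h m r a b F ≤ 1 ∧ rho h m r a b F * (m : ℝ) ^ (psi h m r b - psi h m r a).natAbs ≤ 1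

/-- RKO: a factor which depends only on the letters of `[a, a') ∪ [b', b)` -/
def RKOStmt : Prop := ∀ (K : Type u) [Field K] (h m n : ℕ) [NeZero n] (r : ℕ → ℕ → ℕ)
  (F G : (ℕ → Fin n) → K) (a a' b' b : ℕ), 1 ≤ m → n = m ^ 4 → a ≤ a' → a' ≤ b' → b' ≤ b →
  b ≤ dd h m → DepOn (Set.Ico a a' ∪ Set.Ico b' b) G →
  rho h m r a b (fun w => G w * F w) ≤ rho h m r a' b' F

open Classical in
/-- PAR: partner letters -/
def PARStmt : Prop := ∀ h m : ℕ, 1 ≤ h → 1 ≤ m → ∃ π : ℕ → ℕ,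
  (∀ t < dd h m, π t < dd h m ∧ π (π t) = t) ∧
  (∀ r : ℕ → ℕ → ℕ, ∀ t < dd h m, wt h m r (π t) = - wt h m r t ∧ |wt h m r t| ≤ 2) ∧
  ∀ (n : ℕ) [NeZero n] (r : ℕ → ℕ → ℕ) (w : ℕ → Fin n),
    (∀ t < dd h m, wt h m r t = 0 → w t = 0) →
    (∀ t < dd h m, |wt h m r t| = 1 → (w t : ℕ) < m ^ 2) →
    (Valid h m w ↔ ∀ t < dd h m, 0 < wt h m r t → w t = w (π t))

open Classical in
/-- RFU: full rank of the polynomial for all numbers -/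
def RFUStmt : Prop := ∀ (K : Type u) [Field K] (h m n : ℕ) [NeZero n] (r : ℕ → ℕ → ℕ), 1 ≤ h →
  1 ≤ m → n = m ^ 4 →
  1 ≤ rho h m r 0 (dd h m) (fun w : ℕ → Fin n => if Valid h m w then (1 : K) else 0)

open Classical in
/-- COE: coefficients of the polynomial -/
def COEStmt : Prop := ∀ (K : Type u) [Field K] (h m n : ℕ) [NeZero n], 1 ≤ h → 1 ≤ m → n = m ^ 4 →
  HomogOf (Sp K h m h : NCPoly K (Fin n)) (dd h m) ∧
  ∀ w : ℕ → Fin n, (Sp K h m h : NCPoly K (Fin n)).coeff (seg w 0 (dd h m)) =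
    if Valid h m w then (1 : K) else 0

/-! ## Circuits -/

/-- TYP: the typed nodes -/
def TYPStmt : Prop := ∀ (K : Type u) [Field K] (n : ℕ) (D : Circuit K (Fin n)) (X : HVal D)
  (v : D.V) (a : ℕ),
  DepOn (Set.Ico a (a + X.deg v)) (FF X v a) ∧
  (X.val v = 0 → ∀ w, FF X v a w = 0) ∧
  (X.val v ≠ 0 →
    (∀ i, D.gate v = Gate.var i → X.deg v ≤ 1) ∧
    (∀ c, D.gate v = Gate.const c → X.deg v ≤ 1) ∧
    (∀ x y, D.gate v = Gate.add x y → (X.val x ≠ 0 → X.deg x = X.deg v) ∧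
      (X.val y ≠ 0 → X.deg y = X.deg v) ∧ ∀ w, FF X v a w = FF X x a w + FF X y a w) ∧
    (∀ x y, D.gate v = Gate.mul x y → X.val x ≠ 0 ∧ X.val y ≠ 0 ∧
      X.deg v = X.deg x + X.deg y ∧ ∀ w, FF X v a w = FF X x a w * FF X y (a + X.deg x) w))

/-- PRD: relative ranks at product gates -/
def PRDStmt : Prop := ∀ (K : Type u) [Field K] (h m n : ℕ) [NeZero n] (r : ℕ → ℕ → ℕ)
  (D : Circuit K (Fin n)) (X : HVal D) (x : D.V) (a : ℕ), 1 ≤ m → n = m ^ 4 → MulN X x →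
  a + X.deg (lft D x) + X.deg (rgt D x) ≤ dd h m →
  X.deg x = X.deg (lft D x) + X.deg (rgt D x) ∧ X.val (lft D x) ≠ 0 ∧ X.val (rgt D x) ≠ 0 ∧
  (¬ Alive h m r a (a + X.deg (lft D x)) (a + X.deg (lft D x) + X.deg (rgt D x)) →
    rho h m r a (a + X.deg x) (FF X x a) ≤ 1 / (m : ℝ) ^ KK h) ∧
  (∀ e i, Alive h m r a (a + X.deg (lft D x)) (a + X.deg (lft D x) + X.deg (rgt D x)) →
    Stop h m e i a (a + X.deg (lft D x)) (a + X.deg (lft D x) + X.deg (rgt D x)) →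
    rho h m r a (a + X.deg x) (FF X x a) ≤
      gfac h m r e i a (a + X.deg (lft D x)) (a + X.deg (lft D x) + X.deg (rgt D x)) *
        rho h m r a (a + X.deg (lft D x)) (FF X (lft D x) a) ∧
    rho h m r a (a + X.deg x) (FF X x a) ≤
      gfac h m r e i a (a + X.deg (lft D x)) (a + X.deg (lft D x) + X.deg (rgt D x)) *
        rho h m r (a + X.deg (lft D x)) (a + X.deg (lft D x) + X.deg (rgt D x))
          (FF X (rgt D x) (a + X.deg (lft D x))))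

open Classical in
/-- PRV: private factors -/
def PRVStmt : Prop := ∀ (K : Type u) [Field K] (n : ℕ) (D : Circuit K (Fin n)) (X : HVal D),
  D.WeaklySkew → ∃ prv : D.V → Bool, ∀ (Δ : ℕ) (v : D.V), 1 ≤ Δ → X.val v ≠ 0 →
    Δ * ∑ x ∈ (Sb X v).filter (fun x => MulN X x ∧ Δ ≤ X.deg (lft D x) ∧ Δ ≤ X.deg (rgt D x)),
      (Sb X (if prv x then lft D x else rgt D x)).card ≤ X.deg v * (Sb X v).card

open Classical in
/-- DEC: decomposition along the walk -/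
def DECStmt : Prop := ∀ (K : Type u) [Field K] (h m n : ℕ) (r : ℕ → ℕ → ℕ)
  (D : Circuit K (Fin n)) (X : HVal D) (g : ℤ) (e i : ℕ) (v : D.V) (a : ℕ), 1 ≤ m → RB m r →
  30 ≤ g → X.val v ≠ 0 → Good h m r g e i a (a + X.deg v) →
  ∃ (G0 : D.V → ℕ → (ℕ → Fin n) → K) (G : ℕ × ℕ → D.V → ℕ → (ℕ → Fin n) → K),
    (∀ x a', DepOn (Set.Ico a a' ∪ Set.Ico (a' + X.deg x) (a + X.deg v)) (G0 x a')) ∧
    (∀ p x a', DepOn (Set.Ico a a' ∪ Set.Ico (a' + X.deg x) (a + X.deg v)) (G p x a')) ∧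
    (∀ x a', ¬ (MulN X x ∧ a ≤ a' ∧ a' + X.deg x ≤ a + X.deg v ∧
      ¬ Alive h m r a' (a' + X.deg (lft D x)) (a' + X.deg (lft D x) + X.deg (rgt D x))) →
      ∀ w, G0 x a' w = 0) ∧
    (∀ p x a', ¬ (MulN X x ∧ a ≤ a' ∧ a' + X.deg x ≤ a + X.deg v ∧
      Alive h m r a' (a' + X.deg (lft D x)) (a' + X.deg (lft D x) + X.deg (rgt D x)) ∧
      Stop h m p.1 p.2 a' (a' + X.deg (lft D x)) (a' + X.deg (lft D x) + X.deg (rgt D x)) ∧
      Inside e i p.1 p.2 ∧ p.1 + 10 ≤ h ∧ p.2 < 2 ^ p.1 ∧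
      g ≤ Pot h m p.1 p.2 a' (a' + X.deg x)) → ∀ w, G p x a' w = 0) ∧
    ∀ w, FF X v a w = ∑ x ∈ Sb X v, ∑ a' ∈ Finset.range (dd h m + 1),
      (G0 x a' w + ∑ p ∈ nds h e i, G p x a' w) * FF X x a' w

open Classical in
/-- ONE: one step of the recursion, for fixed numbers -/
def ONEStmt : Prop := ∀ (K : Type u) [Field K] (h m n : ℕ) [NeZero n] (r : ℕ → ℕ → ℕ)
  (D : Circuit K (Fin n)) (X : HVal D) (g : ℤ) (e i : ℕ) (v : D.V) (a : ℕ), 1 ≤ m → n = m ^ 4 →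
  RB m r → 30 ≤ g → X.val v ≠ 0 → i < 2 ^ e → e + 10 ≤ h → a ≤ cs h m e i →
  ce h m e i ≤ a + X.deg v → a + X.deg v ≤ dd h m → g ≤ Pot h m e i a (a + X.deg v) →
  rho h m r a (a + X.deg v) (FF X v a) ≤
    ((Sb X v).card : ℝ) * (dd h m + 1) * (1 / (m : ℝ) ^ KK h) +
    ∑ x ∈ Sb X v, ∑ a' ∈ Finset.range (dd h m + 1), ∑ p ∈ nds h e i,
      if MulN X x ∧ a' + X.deg x ≤ dd h m ∧
        Alive h m r a' (a' + X.deg (lft D x)) (a' + X.deg (lft D x) + X.deg (rgt D x)) ∧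
        Stop h m p.1 p.2 a' (a' + X.deg (lft D x)) (a' + X.deg (lft D x) + X.deg (rgt D x)) ∧
        p.1 + 10 ≤ h ∧ p.2 < 2 ^ p.1 ∧ g ≤ Pot h m p.1 p.2 a' (a' + X.deg x)
      then rho h m r a' (a' + X.deg x) (FF X x a') else 0

/-- the claim of the recursion, with `δ = 2 ^ (12 h + 36) / m` -/
def Claim {K : Type u} [Field K] {n : ℕ} [NeZero n] (h m : ℕ) {D : Circuit K (Fin n)} (X : HVal D)
    (j : ℕ) : Prop :=
  ∀ (e i : ℕ) (v : D.V) (a : ℕ) (ω : Om h m), i < 2 ^ e → e ≤ h → X.val v ≠ 0 → a ≤ cs h m e i →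
    ce h m e i ≤ a + X.deg v → a + X.deg v ≤ dd h m →
    30 * (j : ℤ) ≤ Pot h m e i a (a + X.deg v) →
    avg (Inside e i) (fun ω' => rho h m (rr ω') a (a + X.deg v) (FF X v a)) ω ≤
      ((Sb X v).card : ℝ) * (2 ^ (12 * h + 36) / (m : ℝ)) ^ j

/-- RCI: averages of one stop gate -/
def RCIStmt : Prop := ∀ (K : Type u) [Field K] (h m n : ℕ) [NeZero n] (D : Circuit K (Fin n))
  (X : HVal D) (j : ℕ) (side : Bool) (e i e' i' : ℕ) (x : D.V) (a : ℕ) (ω : Om h m), 1 ≤ m →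
  n = m ^ 4 → Claim h m X j → i < 2 ^ e → Inside e i e' i' → e' + 10 ≤ h → MulN X x →
  a + X.deg x ≤ dd h m → 30 * ((j : ℤ) + 1) ≤ Pot h m e' i' a (a + X.deg x) →
  avg (Inside e i) (fun ω' =>
      gfac h m (rr ω') e' i' a (a + X.deg (lft D x)) (a + X.deg (lft D x) + X.deg (rgt D x)) *
      (if side then rho h m (rr ω') a (a + X.deg (lft D x)) (FF X (lft D x) a)
        else rho h m (rr ω') (a + X.deg (lft D x)) (a + X.deg (lft D x) + X.deg (rgt D x))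
          (FF X (rgt D x) (a + X.deg (lft D x))))) ω ≤
    avg (Inside e i) (fun ω' =>
      gfac h m (rr ω') e' i' a (a + X.deg (lft D x)) (a + X.deg (lft D x) + X.deg (rgt D x))) ω *
    (((Sb X (if side then lft D x else rgt D x)).card : ℝ) * (2 ^ (12 * h + 36) / (m : ℝ)) ^ j)

/-- REC: the claim for all `j` -/
def RECStmt : Prop := ∀ (K : Type u) [Field K] (h m n : ℕ) [NeZero n] (D : Circuit K (Fin n))
  (X : HVal D) (j : ℕ), 1 ≤ h → 2 ^ (12 * h + 36) ≤ m → n = m ^ 4 → D.WeaklySkew → Claim h m X j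

/-- LOW: the lower bound -/
def LOWStmt : Prop := ∀ (K : Type u) [Field K] (h n : ℕ) [NeZero n], 30 ≤ h →
  n = (2 ^ (50 * h)) ^ 4 → ∀ D : Circuit K (Fin n), D.WeaklySkew →
  HomComputes D (Sp K h (2 ^ (50 * h)) h) → 2 ^ (h ^ 2 / 3) ≤ D.size

/-- UPP: the upper bound -/
def UPPStmt : Prop := ∀ (K : Type u) [Field K] (h m n : ℕ) [NeZero n], 1 ≤ h → 2 ≤ m → n = m ^ 4 →
  ∃ D : Circuit K (Fin n), HomComputes D (Sp K h m h) ∧ D.size ≤ (2 ^ h * m) ^ 20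

/-- FIN: the theorem -/
def FINStmt : Prop := ∃ c : ℝ, 0 < c ∧ ∃ s0 : ℕ, ∀ (K : Type u) [Field K] (s : ℕ), s0 ≤ s →
  ∃ (n d : ℕ) (f : NCPoly K (Fin n)), n ≤ s ∧ d ≤ s ∧ HomogOf f d ∧
    (∃ D : Circuit K (Fin n), HomComputes D f ∧ D.size ≤ s) ∧
    ∀ D : Circuit K (Fin n), D.WeaklySkew → HomComputes D f →
      (s : ℝ) ^ (c * Real.log s) ≤ (D.size : ℝ)

end Pool.Agent.H81.NCH
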