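import Pool.Agent.H81.NCH.Stmts

/-!
# NCH: the matching upper bound (Valiant's simulation, order of the factors kept)
-/

set_option autoImplicit false

namespace Pool.Agent.H81.NCH

open Pool.Agent.H80

universe u

/-- Weakly skew derivations: `WSD l k` says that the homogeneous noncommutative polynomials in the
list `l` can be produced with `k` nodes, where each product has a private factor, taken from a
separate derivation. -/
inductive WSD {K : Type u} [Semiring K] {σ : Type} : List (NCPoly K σ) → ℕ → Prop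
  | nil : WSD [] 0
  | var {l : List (NCPoly K σ)} {k : ℕ} (h : WSD l k) (i : σ) :
      WSD (MonoidAlgebra.single (FreeMonoid.of i) 1 :: l) (k + 1)
  | const {l : List (NCPoly K σ)} {k : ℕ} (h : WSD l k) (c : K) :
      WSD (MonoidAlgebra.single 1 c :: l) (k + 1)
  | add {l : List (NCPoly K σ)} {k : ℕ} (h : WSD l k) {a b : NCPoly K σ} (ha : a ∈ l) (hb : b ∈ l)
      (hom : ∃ d, HomogOf (a + b) d) : WSD ((a + b) :: l) (k + 1)
  | mulL {l l' : List (NCPoly K σ)} {k k' : ℕ} (h : WSD l k) (h' : WSD l' k') {a b : NCPoly K σ}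
      (ha : a ∈ l') (hb : b ∈ l) : WSD ((a * b) :: l) (k + k' + 1)
  | mulR {l l' : List (NCPoly K σ)} {k k' : ℕ} (h : WSD l k) (h' : WSD l' k') {a b : NCPoly K σ}
      (ha : a ∈ l) (hb : b ∈ l') : WSD ((a * b) :: l) (k + k' + 1)

/-- WSB: from a derivation to a weakly skew circuit -/
def WSBStmt : Prop := ∀ (K : Type u) [Field K] (n : ℕ) (l : List (NCPoly K (Fin n))) (k : ℕ)
  (f : NCPoly K (Fin n)), WSD l k → f ∈ l →
  ∃ D : Circuit K (Fin n), D.WeaklySkew ∧ HomComputes D f ∧ D.size ≤ k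

/-- WSU: derivation of all nodes of degree at most `k` (by halving the degree) -/
def WSUStmt : Prop := ∀ (K : Type u) [Field K] (n : ℕ) (D : Circuit K (Fin n)) (X : HVal D)
  (t k : ℕ), k < 2 ^ t → ∃ (l : List (NCPoly K (Fin n))) (c : ℕ), WSD l c ∧
    c ≤ (2 * D.size) ^ (t + 1) ∧ ∀ v : D.V, X.val v ≠ 0 → X.deg v ≤ k → X.val v ∈ l

/-- UPV: the upper bound -/
def UPVStmt : Prop := ∃ C : ℝ, 0 < C ∧ ∀ (K : Type u) [Field K] (n d s : ℕ)
  (f : NCPoly K (Fin n)) (D : Circuit K (Fin n)), 2 ≤ s → d ≤ s → HomogOf f d →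
  HomComputes D f → D.size ≤ s →
  ∃ D' : Circuit K (Fin n), D'.WeaklySkew ∧ HomComputes D' f ∧
    (D'.size : ℝ) ≤ (s : ℝ) ^ (C * Real.log s)

end Pool.Agent.H81.NCH
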